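import Pool.Agent.H29.SV.SDefs

/-!
# [H29 SV SGr] the action on the atoms

`ga` acts through the points (`map_mul`, `Equiv.Perm.mul_apply`, `map_one`). `ga_N`: an atom `y = ga h x` has the points `act h p`, `p ∈ pts x`; `g' = g * u` with `u = g⁻¹ * g' ∈ N (pts x)` fixes them. `N_normal`: conjugation (`act (g * x * g⁻¹) (act h p) = act g (act x (act (g⁻¹ * h) p))`).
`N_mono`, `N_le`: clear (for `p' = act g p` and `h`: `act h p' = act (h * g) p`).
-/

set_option autoImplicit false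

open Set

namespace Pool.Agent.H29.SV

open Pool.Agent.H42.CS Pool.Agent.H29.NS

variable {Rel : ℕ → Type} {P : Type} (D : Sd P)

theorem ga_mul (g h : D.G) (x : Atom Rel P) : D.ga (g * h) x = D.ga g (D.ga h x) := by
  show (⟨x.1, x.2.1, fun i => D.act (g * h) (x.2.2 i)⟩ : Atom Rel P) =
    ⟨x.1, x.2.1, fun i => D.act g (D.act h (x.2.2 i))⟩
  rw [map_mul]
  rfl

theorem ga_one (x : Atom Rel P) : D.ga 1 x = x := by
  show (⟨x.1, x.2.1, fun i => D.act 1 (x.2.2 i)⟩ : Atom Rel P) = x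
  rw [map_one]
  rfl

theorem orb_self (x : Atom Rel P) : D.Orb x x := ⟨1, (ga_one D x).symm⟩

theorem orb_ga {x y : Atom Rel P} (h : D.Orb x y) (g : D.G) : D.Orb x (D.ga g y) := by
  obtain ⟨k, rfl⟩ := h
  exact ⟨g * k, (ga_mul D g k x).symm⟩

theorem ga_N {x y : Atom Rel P} (hy : D.Orb x y) {g g' : D.G} (h : g⁻¹ * g' ∈ D.N (pts x)) :
    D.ga g y = D.ga g' y := by
  obtain ⟨k, rfl⟩ := hy
  have h1 : (fun i => D.act g (D.act k (x.2.2 i))) = fun i => D.act g' (D.act k (x.2.2 i)) := by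
    funext i
    have h2 : D.act (g⁻¹ * g') (D.act k (x.2.2 i)) = D.act k (x.2.2 i) := h _ (mem_range_self i) k
    have h3 : D.act g' = D.act g * D.act (g⁻¹ * g') := by
      rw [← map_mul, mul_inv_cancel_left]
    rw [h3, Equiv.Perm.mul_apply, h2]
  show (⟨x.1, x.2.1, fun i => D.act g (D.act k (x.2.2 i))⟩ : Atom Rel P) =
    ⟨x.1, x.2.1, fun i => D.act g' (D.act k (x.2.2 i))⟩
  rw [h1]

theorem N_normal (o : Set P) : (D.N o).Normal := by
  refine ⟨fun x hx g p hp h => ?_⟩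
  have h1 : D.act x (D.act (g⁻¹ * h) p) = D.act (g⁻¹ * h) p := hx p hp (g⁻¹ * h)
  rw [map_mul, map_mul, Equiv.Perm.mul_apply, Equiv.Perm.mul_apply]
  have h2 : D.act g⁻¹ (D.act h p) = D.act (g⁻¹ * h) p := by
    rw [map_mul, Equiv.Perm.mul_apply]
  rw [h2, h1, ← Equiv.Perm.mul_apply, ← map_mul, mul_inv_cancel_left]

theorem N_mono {o o' : Set P} (h : o ⊆ o') : D.N o' ≤ D.N o := fun _ hx p hp g => hx p (h hp) g

theorem N_le {o o' : Set P} (h : ∀ p' ∈ o', ∃ p ∈ o, ∃ g, p' = D.act g p) : D.N o ≤ D.N o' := by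
  intro x hx p' hp' g'
  obtain ⟨p, hp, g, rfl⟩ := h p' hp'
  have h1 := hx p hp (g' * g)
  rw [map_mul, Equiv.Perm.mul_apply] at h1
  exact h1

end Pool.Agent.H29.SV
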