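import Pool.Agent.H29.SV.SCir
import Pool.Agent.H29.SV.SGr
import Pool.Agent.H42.CS.Sym

/-!
# [H29 SV SAct] THEOREM SOLV: the action on the circuit of the gadget

`an g` acts on the names (on the cosets by left multiplication), `ac g` on the nodes.
-/

set_option autoImplicit false

open Set

namespace Pool.Agent.H29.SV

open Pool.Agent.H42.CS Pool.Agent.H29.NS
open Pool.Agent.H79.SL (oo nx Loc)

variable {Rel : ℕ → Type} {P : Type}

/-- the action on the names -/
def an (D : Sd P) {a : ℕ → Atom Rel P} (g : D.G) : SNod D a → SNod D a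
  | .tt => .tt
  | .V x => .V (D.ga g x)
  | .be s l y => .be s l (g • y)
  | .bb s l X y => .bb s l X (g • y)
  | .Y s M y => .Y s M (g • y)
  | .Z s M X y => .Z s M X (g • y)
  | .E s j y => .E s j (g • y)
  | .U s j y => .U s j (g • y)
  | .b s j => .b s j
  | .K s j y => .K s j (g • y)
  | .J s l y => .J s l (g • y)
  | .Dn s l y => .Dn s l (g • y)
  | .cv x => .cv x
  | .W A v => .W A v
  | .W0 A v => .W0 A (fun i => D.act g (v i))

theorem an_one (D : Sd P) {a : ℕ → Atom Rel P} (x : SNod D a) : an D 1 x = x := by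
  cases x with
  | tt => rfl
  | V x => exact congrArg SNod.V (ga_one D x)
  | be s l y => exact congrArg (SNod.be s l) (one_smul D.G y)
  | bb s l X y => exact congrArg (SNod.bb s l X) (one_smul D.G y)
  | Y s M y => exact congrArg (SNod.Y s M) (one_smul D.G y)
  | Z s M X y => exact congrArg (SNod.Z s M X) (one_smul D.G y)
  | E s j y => exact congrArg (SNod.E s j) (one_smul D.G y)
  | U s j y => exact congrArg (SNod.U s j) (one_smul D.G y)
  | b s j => rfl
  | K s j y => exact congrArg (SNod.K s j) (one_smul D.G y)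
  | J s l y => exact congrArg (SNod.J s l) (one_smul D.G y)
  | Dn s l y => exact congrArg (SNod.Dn s l) (one_smul D.G y)
  | cv x => rfl
  | W A v => rfl
  | W0 A v =>
    have h1 : (fun i => D.act 1 (v i)) = v := by
      rw [map_one]
      rfl
    exact congrArg (SNod.W0 A) h1

theorem an_mul (D : Sd P) {a : ℕ → Atom Rel P} (g h : D.G) (x : SNod D a) :
    an D (g * h) x = an D g (an D h x) := by
  cases x with
  | tt => rfl
  | V x => exact congrArg SNod.V (ga_mul D g h x)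
  | be s l y => exact congrArg (SNod.be s l) (mul_smul g h y)
  | bb s l X y => exact congrArg (SNod.bb s l X) (mul_smul g h y)
  | Y s M y => exact congrArg (SNod.Y s M) (mul_smul g h y)
  | Z s M X y => exact congrArg (SNod.Z s M X) (mul_smul g h y)
  | E s j y => exact congrArg (SNod.E s j) (mul_smul g h y)
  | U s j y => exact congrArg (SNod.U s j) (mul_smul g h y)
  | b s j => rfl
  | K s j y => exact congrArg (SNod.K s j) (mul_smul g h y)
  | J s l y => exact congrArg (SNod.J s l) (mul_smul g h y)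
  | Dn s l y => exact congrArg (SNod.Dn s l) (mul_smul g h y)
  | cv x => rfl
  | W A v => rfl
  | W0 A v =>
    have h1 : (fun i => D.act (g * h) (v i)) = fun i => D.act g (D.act h (v i)) := by
      rw [map_mul]
      rfl
    exact congrArg (SNod.W0 A) h1

section
variable {T : Set (Ax Rel)} {D : Sd P} {L k : ℕ} {a : ℕ → Atom Rel P} {MM RR : Set (Subgroup D.G)}

theorem an_good (h : SDat T D L k a MM RR) (g : D.G) (x : SNod D a) :
    Good T D L a MM RR (an D g x) ↔ Good T D L a MM RR x := by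
  cases x with
  | tt => exact Iff.rfl
  | V x =>
    constructor
    · rintro ⟨s, hs, he⟩
      obtain ⟨s', hs', he'⟩ := h.st s hs g⁻¹
      refine ⟨s', hs', ?_⟩
      rw [← he', ← he, ← ga_mul, inv_mul_cancel, ga_one]
    · rintro ⟨s, hs, he⟩
      obtain ⟨s', hs', he'⟩ := h.st s hs g
      refine ⟨s', hs', ?_⟩
      rw [← he', ← he]
  | be s l y => exact Iff.rfl
  | bb s l X y => exact Iff.rfl
  | Y s M y => exact Iff.rfl
  | Z s M X y => exact Iff.rfl
  | E s j q => exact Iff.rfl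
  | U s j q => exact Iff.rfl
  | b s j => exact Iff.rfl
  | K s j q => exact Iff.rfl
  | J s l y => exact Iff.rfl
  | Dn s l y => exact Iff.rfl
  | cv x => exact Iff.rfl
  | W A v => exact Iff.rfl
  | W0 A v => exact Iff.rfl

theorem mk_an (h : SDat T D L k a MM RR) (g : D.G) (x : SNod D a) :
    (mk T D L a MM RR (an D g x)).1 = an D g (mk T D L a MM RR x).1 := by
  by_cases hx : Good T D L a MM RR x
  · rw [mk_good hx, mk_good ((an_good h g x).2 hx)]
  · rw [mk_bad hx, mk_bad fun h1 => hx ((an_good h g x).1 h1)]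
    rfl

/-- the action on the nodes -/
noncomputable def ac (h : SDat T D L k a MM RR) : D.G →* Equiv.Perm (cir h).N where
  toFun g :=
    { toFun := fun x => (⟨an D g x.1, (an_good h g x.1).2 x.2⟩ : Gn T D L a MM RR)
      invFun := fun x => (⟨an D g⁻¹ x.1, (an_good h g⁻¹ x.1).2 x.2⟩ : Gn T D L a MM RR)
      left_inv := fun x => Subtype.ext (by
        show an D g⁻¹ (an D g x.1) = x.1
        rw [← an_mul, inv_mul_cancel, an_one])
      right_inv := fun x => Subtype.ext (by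
        show an D g (an D g⁻¹ x.1) = x.1
        rw [← an_mul, mul_inv_cancel, an_one]) }
  map_one' := Equiv.ext fun x => Subtype.ext (an_one D x.1)
  map_mul' g g' := Equiv.ext fun x => Subtype.ext (an_mul D g g' x.1)

end

private theorem and_map {N N' : Type} (f : P → P) (φ : N → N') {S : Set (Lit N)} {S' : Set (Lit N')}
    (h : S' = Lit.map φ '' S) : (Gate.and S' : Gate (Atom Rel P) N') = (Gate.and S).map f φ := by
  rw [h]
  rfl

private theorem snoc_map {k : ℕ} (σ : P → P) (v : Fin k → P) (y : P) (i : Fin (k + 1)) :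
    (Fin.snoc (fun i => σ (v i)) (σ y) : Fin (k + 1) → P) i = σ ((Fin.snoc v y : Fin (k + 1) → P) i) := by
  refine Fin.lastCases ?_ (fun j => ?_) i
  · rw [Fin.snoc_last, Fin.snoc_last]
  · rw [Fin.snoc_castSucc, Fin.snoc_castSucc]

private theorem inst_ga (D : Sd P) (g : D.G) (A : Ax Rel) (v : Fin A.k → P) (x' : Atom Rel P × Bool) :
    x' ∈ A.inst (fun i => D.act g (v i)) ↔ ∃ x ∈ A.inst v, x' = (D.ga g x.1, x.2) := by
  constructor
  · rintro (⟨l, hl, rfl⟩ | ⟨l, hl, y, rfl⟩)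
    · exact ⟨_, Or.inl ⟨l, hl, rfl⟩, rfl⟩
    · refine ⟨_, Or.inr ⟨l, hl, (D.act g).symm y, rfl⟩, ?_⟩
      have h1 : (fun i => (Fin.snoc (fun i => D.act g (v i)) y : Fin (A.k + 1) → P) (l.2.2 i)) =
          fun i => D.act g ((Fin.snoc v ((D.act g).symm y) : Fin (A.k + 1) → P) (l.2.2 i)) := by
        funext i
        rw [← snoc_map (⇑(D.act g)) v ((D.act g).symm y) (l.2.2 i), Equiv.apply_symm_apply]
      rw [h1]
      rfl
  · rintro ⟨x, ⟨l, hl, rfl⟩ | ⟨l, hl, y, rfl⟩, rfl⟩
    · exact Or.inl ⟨l, hl, rfl⟩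
    · refine Or.inr ⟨l, hl, D.act g y, ?_⟩
      have h1 : (fun i => (Fin.snoc (fun i => D.act g (v i)) (D.act g y) : Fin (A.k + 1) → P) (l.2.2 i)) =
          fun i => D.act g ((Fin.snoc v y : Fin (A.k + 1) → P) (l.2.2 i)) := by
        funext i
        rw [snoc_map]
      rw [h1]
      rfl

private theorem co_set {G N : Type} [Group G] {X : Subgroup G} {y : G ⧸ X} {g : G} {F' F : G → N}
    {φ : N → N} (hF : ∀ x, φ (F x) = F' (g * x)) :
    {z | ∃ x : G, (x : G ⧸ X) = g • y ∧ z = F' x} = φ '' {z | ∃ x : G, (x : G ⧸ X) = y ∧ z = F x} := by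
  ext z
  constructor
  · rintro ⟨x, hx, rfl⟩
    refine ⟨F (g⁻¹ * x), ⟨g⁻¹ * x, ?_, rfl⟩, ?_⟩
    · have h1 : ((g⁻¹ * x : G) : G ⧸ X) = g⁻¹ • (x : G ⧸ X) := rfl
      rw [h1, hx, inv_smul_smul]
    · rw [hF, mul_inv_cancel_left]
  · rintro ⟨_, ⟨x, hx, rfl⟩, rfl⟩
    refine ⟨g * x, ?_, hF x⟩
    have h1 : ((g * x : G) : G ⧸ X) = g • (x : G ⧸ X) := rfl
    rw [h1, hx]

/-- a set with a fixed member and the members of a coset, and a condition -/
private theorem co_or {G N : Type} [Group G] {X : Subgroup G} {y : G ⧸ X} {g : G} {F' F : G → N}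
    {φ : N → N} (c : Prop) (u u' : N) (hu : φ u = u') (hF : ∀ x, φ (F x) = F' (g * x)) :
    {z | c ∧ (z = u' ∨ ∃ x : G, (x : G ⧸ X) = g • y ∧ z = F' x)} =
      φ '' {z | c ∧ (z = u ∨ ∃ x : G, (x : G ⧸ X) = y ∧ z = F x)} := by
  have h0 := co_set (X := X) (y := y) (g := g) hF
  ext z
  constructor
  · rintro ⟨hc, rfl | hz⟩
    · exact ⟨u, ⟨hc, Or.inl rfl⟩, hu⟩
    · have h1 : z ∈ φ '' {z | ∃ x : G, (x : G ⧸ X) = y ∧ z = F x} := by
        rw [← h0]
        exact hz
      obtain ⟨w, hw, rfl⟩ := h1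
      exact ⟨w, ⟨hc, Or.inr hw⟩, rfl⟩
  · rintro ⟨w, ⟨hc, rfl | hw⟩, rfl⟩
    · exact ⟨hc, Or.inl hu⟩
    · refine ⟨hc, Or.inr ?_⟩
      have h1 : φ w ∈ {z | ∃ x : G, (x : G ⧸ X) = g • y ∧ z = F' x} := by
        rw [h0]
        exact ⟨w, hw, rfl⟩
      exact h1

theorem gt_an (D : Sd P) (L : ℕ) {a : ℕ → Atom Rel P} (g : D.G) (x : SNod D a) :
    gt D L a (an D g x) = (gt D L a x).map (D.act g) (an D g) := by
  cases x with
  | tt =>
    refine and_map _ _ ?_
    rw [image_empty]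
  | V x => rfl
  | be s l x =>
    cases s with
    | zero =>
      refine and_map _ _ ?_
      rw [image_empty]
    | succ s =>
      refine and_map _ _ ?_
      rw [image_pair]
      rfl
  | bb s l X y =>
    refine and_map _ _ ?_
    exact co_set (φ := Lit.map (an D g)) fun x => rfl
  | Y s M y =>
    refine and_map _ _ ?_
    ext z
    constructor
    · rintro ⟨l, hl, x, hx, rfl⟩
      refine ⟨mi (.bb s l (oo M l) ((g⁻¹ * x : D.G) : D.G ⧸ oo M l)), ⟨l, hl, g⁻¹ * x, ?_, rfl⟩, ?_⟩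
      · have h1 : ((g⁻¹ * x : D.G) : D.G ⧸ M) = g⁻¹ • (x : D.G ⧸ M) := rfl
        rw [h1, hx, inv_smul_smul]
      · change (mi (.bb s l (oo M l) (((g * (g⁻¹ * x) : D.G)) : D.G ⧸ oo M l)) : Lit (SNod D a)) = _
        rw [mul_inv_cancel_left]
    · rintro ⟨_, ⟨l, hl, x, hx, rfl⟩, rfl⟩
      refine ⟨l, hl, g * x, ?_, rfl⟩
      have h1 : ((g * x : D.G) : D.G ⧸ M) = g • (x : D.G ⧸ M) := rfl
      rw [h1, hx]
  | Z s M X y =>
    refine and_map _ _ ?_
    exact co_set (φ := Lit.map (an D g)) fun x => rfl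
  | E s j q =>
    cases j with
    | zero =>
      refine and_map _ _ ?_
      rw [image_singleton]
      rfl
    | succ j =>
      refine and_map _ _ ?_
      ext z
      constructor
      · rintro (rfl | ⟨h, rfl⟩)
        · exact ⟨_, Or.inl rfl, rfl⟩
        · exact ⟨_, Or.inr ⟨h, rfl⟩, rfl⟩
      · rintro ⟨_, rfl | ⟨h, rfl⟩, rfl⟩
        · exact Or.inl rfl
        · exact Or.inr ⟨h, rfl⟩
  | U s j q =>
    refine and_map _ _ ?_
    refine co_or (φ := Lit.map (an D g)) _ _ _ rfl fun x => ?_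
    change (mi (.V (D.ga g (D.ga x (a j)))) : Lit (SNod D a)) = _
    rw [← ga_mul]
  | b s j =>
    refine and_map _ _ ?_
    ext z
    constructor
    · rintro ⟨q, rfl⟩
      refine ⟨mi (.U s j (g⁻¹ • q)), ⟨_, rfl⟩, ?_⟩
      change (mi (.U s j (g • g⁻¹ • q)) : Lit (SNod D a)) = mi (.U s j q)
      rw [smul_inv_smul]
    · rintro ⟨_, ⟨q, rfl⟩, rfl⟩
      exact ⟨g • q, rfl⟩
  | K s j q =>
    refine and_map _ _ ?_
    have h1 := co_or (X := D.N (pts (a s))) (y := q) (g := g) (φ := Lit.map (an D g)) (D.Orb (a s) (a j))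
      (mi (.b s j) : Lit (SNod D a)) (mi (.b s j)) rfl (F := fun x => pl (.V (D.ga x (a j))))
      (F' := fun x => pl (.V (D.ga x (a j)))) fun x => by
        change (pl (.V (D.ga g (D.ga x (a j)))) : Lit (SNod D a)) = _
        rw [← ga_mul]
    have e : ∀ (y : D.G ⧸ D.N (pts (a s))), {z : Lit (SNod D a) | D.Orb (a s) (a j) ∧
        ((∃ x : D.G, (x : D.G ⧸ D.N (pts (a s))) = y ∧ z = pl (.V (D.ga x (a j)))) ∨ z = mi (.b s j))} =
        {z | D.Orb (a s) (a j) ∧ (z = mi (.b s j) ∨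
          ∃ x : D.G, (x : D.G ⧸ D.N (pts (a s))) = y ∧ z = pl (.V (D.ga x (a j))))} := by
      intro y
      ext z
      exact and_congr_right fun _ => or_comm
    exact (e (g • q)).trans (h1.trans (congrArg (fun s => Lit.map (an D g) '' s) (e q).symm))
  | J s l y =>
    refine and_map _ _ ?_
    have h1 := co_or (X := (oo ⊥ l ⊓ D.N (pts (a s)) : Subgroup D.G)) (y := y) (g := g)
      (φ := Lit.map (an D g)) True
      (pl (.Y s (oo ⊥ l ⊓ D.N (pts (a s))) y) : Lit (SNod D a))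
      (pl (.Y s (oo ⊥ l ⊓ D.N (pts (a s))) (g • y))) rfl
      (F := fun x => pl (.E s L (x : D.G ⧸ D.N (pts (a s)))))
      (F' := fun x => pl (.E s L (x : D.G ⧸ D.N (pts (a s))))) fun x => rfl
    simp only [true_and] at h1
    exact h1
  | Dn s l y =>
    refine and_map _ _ ?_
    exact co_set (φ := Lit.map (an D g)) fun x => rfl
  | cv x =>
    refine and_map _ _ ?_
    ext z
    constructor
    · rintro ⟨s, hs, hx, rfl⟩
      exact ⟨_, ⟨s, hs, hx, rfl⟩, rfl⟩
    · rintro ⟨_, ⟨s, hs, hx, rfl⟩, rfl⟩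
      exact ⟨s, hs, hx, rfl⟩
  | W A v =>
    refine and_map _ _ ?_
    ext z
    constructor
    · rintro ⟨x, hx, rfl⟩
      exact ⟨_, ⟨x, hx, rfl⟩, rfl⟩
    · rintro ⟨_, ⟨x, hx, rfl⟩, rfl⟩
      exact ⟨x, hx, rfl⟩
  | W0 A v =>
    refine and_map _ _ ?_
    ext z
    constructor
    · rintro ⟨x', hx', rfl⟩
      obtain ⟨x, hx, rfl⟩ := (inst_ga D g A v x').1 hx'
      exact ⟨_, ⟨x, hx, rfl⟩, rfl⟩
    · rintro ⟨_, ⟨x, hx, rfl⟩, rfl⟩
      exact ⟨_, (inst_ga D g A v _).2 ⟨x, hx, rfl⟩, rfl⟩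

private theorem gate_map_map {N N' N'' : Type} (f f' : P → P) (g : N → N') (g' : N' → N'')
    (x : Gate (Atom Rel P) N) : (x.map f g).map f' g' = x.map (fun p => f' (f p)) (fun a => g' (g a)) := by
  cases x with
  | var v => rfl
  | and S =>
    change Gate.and (Lit.map g' '' (Lit.map g '' S)) = Gate.and _
    rw [image_image]
    rfl
  | sym A S =>
    change Gate.sym A (Lit.map g' '' (Lit.map g '' S)) = Gate.sym A _
    rw [image_image]
    rfl

section
variable {T : Set (Ax Rel)} {D : Sd P} {L k : ℕ} {a : ℕ → Atom Rel P} {MM RR : Set (Subgroup D.G)}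

theorem gate_ac (h : SDat T D L k a MM RR) (g : D.G) (x : (cir h).N) :
    (cir h).gate (ac h g x) = ((cir h).gate x).map (D.act g) (ac h g) := by
  have h1 : (cir h).gate (ac h g x) =
      ((gt D L a x.1).map (D.act g) (an D g)).map id (mk T D L a MM RR) := by
    rw [← gt_an]
    rfl
  have h2 : ((cir h).gate x).map (D.act g) (ac h g) =
      (gt D L a x.1).map (D.act g) (fun y => ac h g (mk T D L a MM RR y)) :=
    gate_map_map id (D.act g) (mk T D L a MM RR) (ac h g) (gt D L a x.1)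
  have h3 : (fun y => ac h g (mk T D L a MM RR y)) = fun y => mk T D L a MM RR (an D g y) :=
    funext fun y => Subtype.ext (mk_an h g y).symm
  rw [h1, h2, h3, gate_map_map]
  rfl

theorem ac_cv (h : SDat T D L k a MM RR) (g : D.G) (x : Atom Rel P) :
    ac h g (mk T D L a MM RR (.cv x)) = mk T D L a MM RR (.cv x) :=
  Subtype.ext (mk_an h g (.cv x)).symm

end

end Pool.Agent.H29.SV
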