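import Pool.Agent.H29.SV.SInv

/-!
# [H29 SV SCan] the allowed classes give the canonical structure

`Q s = H.loc _ (H.inv_all hs).1 (H.inv_all hs).2.1 (H.inv_all hs).2.2 : Loc T C D.G` (its nodes are those of stage `s`, by `rfl`).
`be_down`: induction on `s'` (`gbe`, `Rf.andT`). `Y_down`: `Y_mk` (`(Q s).Y_mk`) for `Δ = [pl (Y s' M g)]`: for every `l`: `[pl (bb s l (oo M l) g), pl (Y s' M g)]`: `Y s' M g → ¬ bb s' l (oo M l) g` (`Y_bb`), and `(Q s').bb_el`: for `x ∈ g (oo M l)` with `be s' l x`: `be s l x` (`be_down`), `¬ bb s l (oo M l) g` (`be_bb`).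
(The condition `oo ⊥ l ≤ oo M l` is `oo_mono` with `bot_le`.)
`can_E`: `[pl (Y L (N s) g), mi (E s L g)]`: `lg` (`H79/SL/Out`) with `X = N s` (`N_normal`), `B x = pl (H.E s L x)` (closed: `clE` with `(Q s).clY`), `Δ = [pl (Y L (N s) g), mi (E s L g)]`. `h0`: for `b ∈ g (N s)`: `E s L b = E s L g` (`iE`): `Rf.triv`. `hu`: for `l` and `Δ'`: `Y L (N s) g → Y (s+1) (N s) g` (`Y_down`) `→ ¬ bb (s+1) l (oo (N s) l) g` (`Y_bb`);
`(Q (s+1)).bb_el`: `x ∈ g (oo (N s) l)` with `be (s+1) l x`; `be_J`: `z ∈ x (oo ⊥ l)` with `J s l z`, so `E s L z` (`gJ`, `Rf.andT`), and `g⁻¹ * z ∈ oo (N s) l` (`oo ⊥ l ≤ oo (N s) l`): the hypothesis for `b = z` and a cut.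
`can_E'`: `Y_res` from `M` to `N s`. `can1`, `can2`: `can_E'` with `E_b`, `b_E` for `j = s` (`orb_self`).
-/

set_option autoImplicit false

open Set

namespace Pool.Agent.H29.SV

open Pool.Agent.H42.CS Pool.Agent.H29.NS
open Pool.Agent.H79.SL (oo nx Loc lg oo_normal oo_mono oo_inf le_oo mem_tr mem_sy mem_rf mem3)

variable {Rel : ℕ → Type} {P : Type} {T : Set (Ax Rel)} {D : Sd P} {C : Circuit Rel P} {L k : ℕ}
  {a : ℕ → Atom Rel P} (H : SG T D C L k a)

private theorem ca_bbT {s l : ℕ} (hs : s ≤ L) (hl : l ∈ D.LL) {X : Subgroup D.G} (hX : X ∈ H.RR) {g x : D.G}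
    (hg : g⁻¹ * x ∈ X) : Rf T C [pl (H.bb s l X g), pl (H.be s l x)] :=
  Rf.andT (x := mi (H.be s l x)) (H.gbb s hs l hl X hX g) ⟨x, hg, rfl⟩

private theorem ca_bbF {s l : ℕ} (hs : s ≤ L) (hl : l ∈ D.LL) {X : Subgroup D.G} (hX : X ∈ H.RR) {g : D.G}
    {Δ : List (Lit C.N)} (hm : mi (H.bb s l X g) ∈ Δ) (h : ∀ x, g⁻¹ * x ∈ X → Rf T C (pl (H.be s l x) :: Δ))
    (hw : Δ.length ≤ 15) : Rf T C Δ := by
  refine Rf.andF (H.gbb s hs l hl X hX g) hm ?_ (by omega)
  rintro x ⟨k, hk, rfl⟩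
  exact h k hk

private theorem ca_YT {s l : ℕ} (hs : s ≤ L) (hl : l ∈ D.LL) {M : Subgroup D.G} (hM : M ∈ H.MM) (g : D.G) :
    Rf T C [pl (H.Y s M g), pl (H.bb s l (oo M l) g)] :=
  Rf.andT (x := mi (H.bb s l (oo M l) g)) (H.gY s hs M hM g) ⟨l, hl, rfl⟩

private theorem ca_YF {s : ℕ} (hs : s ≤ L) {M : Subgroup D.G} (hM : M ∈ H.MM) {g : D.G} {Δ : List (Lit C.N)}
    (hm : mi (H.Y s M g) ∈ Δ) (h : ∀ l ∈ D.LL, Rf T C (pl (H.bb s l (oo M l) g) :: Δ)) (hw : Δ.length ≤ 15) :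
    Rf T C Δ := by
  refine Rf.andF (H.gY s hs M hM g) hm ?_ (by omega)
  rintro x ⟨l, hl, rfl⟩
  exact h l hl

private theorem ca_N {s : ℕ} (hs : s < L) : D.N (pts (a s)) ∈ H.MM := H.fam.mN _ (H.cd s hs)

theorem SG.be_down {s s' : ℕ} (h : s ≤ s') (hs : s' ≤ L) {l : ℕ} (hl : l ∈ D.LL) (g : D.G) :
    Rf T C [pl (H.be s' l g), mi (H.be s l g)] := by
  induction s', h using Nat.le_induction with
  | base => exact Rf.triv (pl (H.be s l g)) (by simp) (by simp [Lit.neg]) (by simp)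
  | succ i hsi ih =>
    have h1 : Rf T C [pl (H.be (i + 1) l g), mi (H.be i l g)] :=
      Rf.andT (x := pl (H.be i l g)) (H.gbe i hs l hl g) (by simp)
    refine Rf.cut (pl (H.be i l g)) ((ih (Nat.le_of_succ_le hs)).mono ?_ (by simp)) (h1.mono ?_ (by simp)) (by simp)
    · intro w hw
      simp only [List.mem_cons, List.not_mem_nil, or_false] at hw ⊢
      tauto
    · intro w hw
      simp only [List.mem_cons, List.not_mem_nil, or_false, Lit.neg, Bool.not_true] at hw ⊢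
      tauto

theorem SG.Y_down {s s' : ℕ} (h : s ≤ s') (hs : s' ≤ L) {M : Subgroup D.G} (hM : M ∈ H.MM) (g : D.G) :
    Rf T C [pl (H.Y s' M g), mi (H.Y s M g)] := by
  have hsL : s ≤ L := h.trans hs
  refine ca_YF H hsL hM (g := g) (by simp) (fun l hl => ?_) (by simp)
  refine Rf.cut (pl (H.bb s' l (oo M l) g)) ((ca_YT H hs hl hM g).mono ?_ (by simp)) ?_ (by simp)
  · intro w hw
    simp only [List.mem_cons, List.not_mem_nil, or_false] at hw ⊢
    tauto
  · refine ca_bbF H hs hl (H.fam.roo M hM l hl) (g := g) (List.mem_cons_self) (fun x hx => ?_) (by simp)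
    refine Rf.cut (pl (H.be s l x)) ((ca_bbT H hsL hl (H.fam.roo M hM l hl) hx).mono ?_ (by simp))
      ((H.be_down h hs hl x).mono ?_ (by simp)) (by simp)
    · intro w hw
      simp only [List.mem_cons, List.not_mem_nil, or_false] at hw ⊢
      tauto
    · intro w hw
      simp only [List.mem_cons, List.not_mem_nil, or_false, Lit.neg, Bool.not_true] at hw ⊢
      tauto

private theorem ca_YE {s : ℕ} (hs : s < L) (g : D.G) :
    Rf T C [pl (H.Y (s + 1) (D.N (pts (a s))) g), mi (H.E s L g)] := by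
  obtain ⟨h1, h2, h3⟩ := H.inv_all hs.le
  have hNn := N_normal D (pts (a s))
  have hcl : ∀ x y z, Rf T C [pl (H.E s L x), pl (H.E s L y), pl (H.E s L z), mi (H.E s L (x * y⁻¹ * z))] :=
    fun x y z => H.clE hs (fun x y z => (H.loc hs.le h1 h2 h3).clY (ca_N H hs) x y z) x y z
  refine lg D.lne D.lall hNn (fun b => pl (H.E s L b)) hcl g _ (by simp) ?_ ?_
  · intro b hb
    rw [H.iE s L g b hb]
    exact Rf.triv (pl (H.E s L b)) (by simp) (by simp [Lit.neg]) (by simp)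
  · intro l hl Δ' hΔ hw Hb
    simp only [List.length_cons, List.length_nil] at hw
    refine Rf.cut (pl (H.bb (s + 1) l (oo (D.N (pts (a s))) l) g)) ?_ ?_ (by omega)
    · refine (ca_YT H (s := s + 1) hs hl (ca_N H hs) g).mono ?_ (by simp only [List.length_cons]; omega)
      intro w hw
      simp only [List.mem_cons, List.not_mem_nil, or_false] at hw
      rcases hw with rfl | rfl
      · exact List.mem_cons_of_mem _ (hΔ _ (by simp))
      · exact List.mem_cons_self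
    · refine ca_bbF H (s := s + 1) hs hl (H.fam.roo _ (ca_N H hs) l hl) (g := g) (List.mem_cons_self) (fun x hx => ?_)
        (by simp only [List.length_cons]; omega)
      refine H.be_J hs hl x _ (by simp only [List.length_cons]; omega) (fun z hz => ?_)
      have h4 : g⁻¹ * z ∈ oo (D.N (pts (a s))) l := mem_tr hx (oo_mono inferInstance hNn bot_le l hz)
      have hJE : Rf T C [pl (H.J s l z), mi (H.E s L z)] :=
        Rf.andT (x := pl (H.E s L z)) (H.gJ s hs l hl z) (by simp)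
      refine Rf.cut (pl (H.E s L z)) ?_ ?_ (by simp only [List.length_cons]; omega)
      · refine (Hb z h4).mono ?_ (by simp only [List.length_cons]; omega)
        intro w hw
        simp only [List.mem_cons] at hw ⊢
        tauto
      · refine hJE.mono ?_ (by simp only [List.length_cons]; omega)
        intro w hw
        simp only [List.mem_cons, List.not_mem_nil, or_false, Lit.neg, Bool.not_true] at hw ⊢
        tauto

private theorem ca_cut {f g l : List (Lit C.N)} (x : Lit C.N) (hf : Rf T C f) (hg : Rf T C g)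
    (h1 : ∀ y ∈ f, y = x ∨ y ∈ l) (h2 : ∀ y ∈ g, y = x.neg ∨ y ∈ l) (hw : l.length ≤ 15) :
    Rf T C l :=
  Rf.cut x (hf.mono (fun y hy => List.mem_cons.2 (h1 y hy)) (by rw [List.length_cons]; omega))
    (hg.mono (fun y hy => List.mem_cons.2 (h2 y hy)) (by rw [List.length_cons]; omega)) (by omega)

theorem SG.can_E {s : ℕ} (hs : s < L) (g : D.G) :
    Rf T C [pl (H.Y L (D.N (pts (a s))) g), mi (H.E s L g)] :=
  ca_cut (pl (H.Y (s + 1) (D.N (pts (a s))) g)) (ca_YE H hs g)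
    (H.Y_down (Nat.succ_le_of_lt hs) le_rfl (ca_N H hs) g) (by simp) (by simp [Lit.neg]) (by simp)

theorem SG.can_E' {s : ℕ} (hs : s < L) {M : Subgroup D.G} (hM : M ∈ H.MM) (h : M ≤ D.N (pts (a s))) (g : D.G) :
    Rf T C [pl (H.Y L M g), mi (H.E s L g)] := by
  obtain ⟨h1, h2, h3⟩ := H.inv_all (le_refl L)
  have h4 : Rf T C [pl (H.Y L M g), mi (H.Y L (D.N (pts (a s))) g)] :=
    (H.loc (le_refl L) h1 h2 h3).Y_res hM (ca_N H hs) h (mem_rf _ g)
  exact ca_cut (pl (H.Y L (D.N (pts (a s))) g)) (H.can_E hs g) h4 (by simp) (by simp [Lit.neg]) (by simp)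

theorem SG.can1 {s : ℕ} (hs : s < L) {M : Subgroup D.G} (hM : M ∈ H.MM) (h : M ≤ D.N (pts (a s))) (g : D.G) :
    Rf T C [pl (H.Y L M g), pl (H.V (D.ga g (a s))), mi (H.b s s)] :=
  ca_cut (pl (H.E s L g)) (H.E_b hs hs (orb_self D _) g) (H.can_E' hs hM h g) (by simp)
    (by simp [Lit.neg]) (by simp)

theorem SG.can2 {s : ℕ} (hs : s < L) {M : Subgroup D.G} (hM : M ∈ H.MM) (h : M ≤ D.N (pts (a s))) (g : D.G) :
    Rf T C [pl (H.Y L M g), mi (H.V (D.ga g (a s))), pl (H.b s s)] :=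
  ca_cut (pl (H.E s L g)) (H.b_E hs hs (orb_self D _) g) (H.can_E' hs hM h g) (by simp)
    (by simp [Lit.neg]) (by simp)

end Pool.Agent.H29.SV
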