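import Pool.Agent.H29.SV.SDefs

/-!
# [H29 SV SCir] THEOREM SOLV: the circuit of the gadget (definitions, and the number of its nodes)

`SNod D a`: the names of the nodes, with natural numbers, normal subgroups and cosets as indices; `gt` the gate of a name, `Good` the names which are used, `mk` the
node of a name (`tt` if the name is not good), `cir` the circuit; the gate of `mk x` is the gate of the name `x` (if `x` is good).
-/

set_option autoImplicit false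

open Set

namespace Pool.Agent.H29.SV

open Pool.Agent.H42.CS Pool.Agent.H29.NS
open Pool.Agent.H79.SL (oo nx Loc)

variable {Rel : ℕ → Type} {P : Type}

/-- the names of the nodes -/
inductive SNod (D : Sd P) (a : ℕ → Atom Rel P) : Type
  | tt
  | V (x : Atom Rel P)
  | be (s l : ℕ) (y : D.G ⧸ (oo ⊥ l : Subgroup D.G))
  | bb (s l : ℕ) (X : Subgroup D.G) (y : D.G ⧸ X)
  | Y (s : ℕ) (M : Subgroup D.G) (y : D.G ⧸ M)
  | Z (s : ℕ) (M X : Subgroup D.G) (y : D.G ⧸ X)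
  | E (s j : ℕ) (y : D.G ⧸ D.N (pts (a s)))
  | U (s j : ℕ) (y : D.G ⧸ D.N (pts (a s)))
  | b (s j : ℕ)
  | K (s j : ℕ) (y : D.G ⧸ D.N (pts (a s)))
  | J (s l : ℕ) (y : D.G ⧸ (oo ⊥ l ⊓ D.N (pts (a s)) : Subgroup D.G))
  | Dn (s l : ℕ) (y : D.G ⧸ (oo ⊥ l : Subgroup D.G))
  | cv (x : Atom Rel P)
  | W (A : Ax Rel) (v : Fin A.k → P)
  | W0 (A : Ax Rel) (v : Fin A.k → P)

/-- the gate of a name -/
def gt (D : Sd P) (L : ℕ) (a : ℕ → Atom Rel P) : SNod D a → Gate (Atom Rel P) (SNod D a)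
  | .tt => .and ∅
  | .V x => .var x
  | .be 0 _ _ => .and ∅
  | .be (s + 1) l y => .and {pl (.be s l y), mi (.Dn s l y)}
  | .bb s l X y => .and {z | ∃ x : D.G, (x : D.G ⧸ X) = y ∧ z = mi (.be s l (x : D.G ⧸ (oo ⊥ l : Subgroup D.G)))}
  | .Y s M y => .and {z | ∃ l ∈ D.LL, ∃ x : D.G, (x : D.G ⧸ M) = y ∧ z = mi (.bb s l (oo M l) (x : D.G ⧸ oo M l))}
  | .Z s M X y => .and {z | ∃ x : D.G, (x : D.G ⧸ X) = y ∧ z = mi (.Y s M (x : D.G ⧸ M))}
  | .E s 0 y => .and {pl (.Y s (D.N (pts (a s))) y)}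
  | .E s (j + 1) y => .and {z | z = pl (.E s j y) ∨ D.Orb (a s) (a j) ∧ z = mi (.K s j y)}
  | .U s j y => .and {z | D.Orb (a s) (a j) ∧
      (z = pl (.E s j y) ∨ ∃ x : D.G, (x : D.G ⧸ D.N (pts (a s))) = y ∧ z = mi (.V (D.ga x (a j))))}
  | .b s j => .and (range fun y => mi (.U s j y))
  | .K s j y => .and {z | D.Orb (a s) (a j) ∧
      ((∃ x : D.G, (x : D.G ⧸ D.N (pts (a s))) = y ∧ z = pl (.V (D.ga x (a j)))) ∨ z = mi (.b s j))}
  | .J s l y => .and {z | z = pl (.Y s (oo ⊥ l ⊓ D.N (pts (a s))) y) ∨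
      ∃ x : D.G, (x : D.G ⧸ (oo ⊥ l ⊓ D.N (pts (a s)) : Subgroup D.G)) = y ∧ z = pl (.E s L (x : D.G ⧸ D.N (pts (a s))))}
  | .Dn s l y => .and {z | ∃ x : D.G, (x : D.G ⧸ (oo ⊥ l : Subgroup D.G)) = y ∧
      z = mi (.J s l (x : D.G ⧸ (oo ⊥ l ⊓ D.N (pts (a s)) : Subgroup D.G)))}
  | .cv x => .and {z | ∃ s < L, x = a s ∧ z = pl (.b s s)}
  | .W A v => .and {z | ∃ x ∈ A.inst v, z = ⟨.cv x.1, !x.2⟩}
  | .W0 A v => .and {z | ∃ x ∈ A.inst v, z = ⟨.V x.1, !x.2⟩}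

/-- the level of a name -/
def rk (D : Sd P) (L : ℕ) (a : ℕ → Atom Rel P) : SNod D a → ℕ
  | .tt => 0
  | .V _ => 0
  | .be s _ _ => s * (4 * L + 12) + 1
  | .bb s _ _ _ => s * (4 * L + 12) + 2
  | .Y s _ _ => s * (4 * L + 12) + 3
  | .Z s _ _ _ => s * (4 * L + 12) + 4
  | .E s j _ => s * (4 * L + 12) + 4 + 4 * j
  | .U s j _ => s * (4 * L + 12) + 5 + 4 * j
  | .b s j => s * (4 * L + 12) + 6 + 4 * j
  | .K s j _ => s * (4 * L + 12) + 7 + 4 * j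
  | .J s _ _ => s * (4 * L + 12) + 5 + 4 * L
  | .Dn s _ _ => s * (4 * L + 12) + 6 + 4 * L
  | .cv _ => L * (4 * L + 12) + 1
  | .W _ _ => L * (4 * L + 12) + 2
  | .W0 _ _ => 1

/-- the names in use -/
def Good (T : Set (Ax Rel)) (D : Sd P) (L : ℕ) (a : ℕ → Atom Rel P) (MM RR : Set (Subgroup D.G)) : SNod D a → Prop
  | .tt => True
  | .V x => ∃ s < L, x = a s
  | .be s l _ => s ≤ L ∧ l ∈ D.LL
  | .bb s l X _ => s ≤ L ∧ l ∈ D.LL ∧ X ∈ RR
  | .Y s M _ => s ≤ L ∧ M ∈ MM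
  | .Z s M X _ => s ≤ L ∧ M ∈ MM ∧ X ∈ RR
  | .E s j _ => s < L ∧ j ≤ L
  | .U s j _ => s < L ∧ j < L
  | .b s j => s < L ∧ j < L
  | .K s j _ => s < L ∧ j < L
  | .J s l _ => s < L ∧ l ∈ D.LL
  | .Dn s l _ => s < L ∧ l ∈ D.LL
  | .cv x => ∃ s < L, x = a s
  | .W A _ => A ∈ T
  | .W0 A _ => A ∈ T

/-- the data of the canonisation: `a 0, …, a (L - 1)` are all atoms of `T`, without repetition -/
structure SDat (T : Set (Ax Rel)) (D : Sd P) (L k : ℕ) (a : ℕ → Atom Rel P) (MM RR : Set (Subgroup D.G)) : Prop where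
  fP : Finite P
  fT : T.Finite
  st : ∀ s < L, ∀ g, ∃ s' < L, D.ga g (a s) = a s'
  inj : ∀ s < L, ∀ s' < L, a s = a s' → s = s'
  cd : ∀ s < L, (pts (a s)).ncard ≤ k
  inst : ∀ A ∈ T, ∀ (v : Fin A.k → P), ∀ x ∈ A.inst v, ∃ s < L, x.1 = a s
  vk : ∀ A ∈ T, A.k + 1 ≤ k
  fam : Fam D L k a MM RR

/-- the nodes -/
abbrev Gn (T : Set (Ax Rel)) (D : Sd P) (L : ℕ) (a : ℕ → Atom Rel P) (MM RR : Set (Subgroup D.G)) : Type :=
  {x : SNod D a // Good T D L a MM RR x}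

open Classical in
/-- the node of a name -/
noncomputable def mk (T : Set (Ax Rel)) (D : Sd P) (L : ℕ) (a : ℕ → Atom Rel P) (MM RR : Set (Subgroup D.G))
    (x : SNod D a) : Gn T D L a MM RR :=
  if h : Good T D L a MM RR x then ⟨x, h⟩ else ⟨.tt, trivial⟩

section
variable {T : Set (Ax Rel)} {D : Sd P} {L k : ℕ} {a : ℕ → Atom Rel P} {MM RR : Set (Subgroup D.G)}

theorem mk_good {x : SNod D a} (h : Good T D L a MM RR x) : mk T D L a MM RR x = ⟨x, h⟩ := dif_pos h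

theorem mk_bad {x : SNod D a} (h : ¬ Good T D L a MM RR x) : mk T D L a MM RR x = ⟨.tt, trivial⟩ := dif_neg h

theorem rk_mk (x : SNod D a) : rk D L a (mk T D L a MM RR x).1 ≤ rk D L a x := by
  by_cases h : Good T D L a MM RR x
  · rw [mk_good h]
  · rw [mk_bad h]
    exact Nat.zero_le _

end

theorem rk_lt (D : Sd P) (L : ℕ) (a : ℕ → Atom Rel P) (x : SNod D a) :
    ∀ y ∈ (gt D L a x).children, rk D L a y.node < rk D L a x := by
  intro y hy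
  cases x with
  | tt => exact absurd hy (Set.notMem_empty _)
  | V x => exact absurd hy (Set.notMem_empty _)
  | be s l x =>
    cases s with
    | zero => exact absurd hy (Set.notMem_empty _)
    | succ s =>
      rcases hy with rfl | rfl
      · show s * (4 * L + 12) + 1 < (s + 1) * (4 * L + 12) + 1
        rw [Nat.succ_mul s]
        omega
      · show s * (4 * L + 12) + 6 + 4 * L < (s + 1) * (4 * L + 12) + 1
        rw [Nat.succ_mul s]
        omega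
  | bb s l X y =>
    obtain ⟨x, -, rfl⟩ := hy
    exact Nat.lt_succ_self _
  | Y s M y =>
    obtain ⟨l, -, x, -, rfl⟩ := hy
    exact Nat.lt_succ_self _
  | Z s M X y =>
    obtain ⟨x, -, rfl⟩ := hy
    exact Nat.lt_succ_self _
  | E s j q =>
    cases j with
    | zero =>
      rcases hy with rfl
      show s * (4 * L + 12) + 3 < s * (4 * L + 12) + 4 + 4 * 0
      omega
    | succ j =>
      rcases hy with rfl | ⟨h, rfl⟩
      · show s * (4 * L + 12) + 4 + 4 * j < s * (4 * L + 12) + 4 + 4 * (j + 1)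
        omega
      · show s * (4 * L + 12) + 7 + 4 * j < s * (4 * L + 12) + 4 + 4 * (j + 1)
        omega
  | U s j q =>
    rcases hy with ⟨h, rfl | ⟨x, -, rfl⟩⟩
    · show s * (4 * L + 12) + 4 + 4 * j < s * (4 * L + 12) + 5 + 4 * j
      omega
    · show 0 < s * (4 * L + 12) + 5 + 4 * j
      omega
  | b s j =>
    obtain ⟨q, rfl⟩ := hy
    show s * (4 * L + 12) + 5 + 4 * j < s * (4 * L + 12) + 6 + 4 * j
    omega
  | K s j q =>
    rcases hy with ⟨h, ⟨x, -, rfl⟩ | rfl⟩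
    · show 0 < s * (4 * L + 12) + 7 + 4 * j
      omega
    · show s * (4 * L + 12) + 6 + 4 * j < s * (4 * L + 12) + 7 + 4 * j
      omega
  | J s l y =>
    rcases hy with rfl | ⟨x, -, rfl⟩
    · show s * (4 * L + 12) + 3 < s * (4 * L + 12) + 5 + 4 * L
      omega
    · show s * (4 * L + 12) + 4 + 4 * L < s * (4 * L + 12) + 5 + 4 * L
      omega
  | Dn s l y =>
    obtain ⟨x, -, rfl⟩ := hy
    show s * (4 * L + 12) + 5 + 4 * L < s * (4 * L + 12) + 6 + 4 * L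
    omega
  | cv x =>
    obtain ⟨s, hs, -, rfl⟩ := hy
    show s * (4 * L + 12) + 6 + 4 * s < L * (4 * L + 12) + 1
    have h1 : (s + 1) * (4 * L + 12) ≤ L * (4 * L + 12) := Nat.mul_le_mul_right _ hs
    rw [Nat.succ_mul s] at h1
    omega
  | W A v =>
    obtain ⟨x, -, rfl⟩ := hy
    exact Nat.lt_succ_self _
  | W0 A v =>
    obtain ⟨x, -, rfl⟩ := hy
    exact Nat.lt_succ_self _

private theorem cir_sig {α : Type*} {β : α → Type*} [Finite α] [∀ a, Finite (β a)] {x y : ℕ}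
    (hx : Nat.card α ≤ x) (hy : ∀ a, Nat.card (β a) ≤ y) : Nat.card (Σ a, β a) ≤ x * y := by
  classical
  have := Fintype.ofFinite α
  rw [Nat.card_sigma]
  refine (Finset.sum_le_card_nsmul _ _ y fun a _ => hy a).trans ?_
  rw [smul_eq_mul, Finset.card_univ, ← Nat.card_eq_fintype_card]
  exact Nat.mul_le_mul_right _ hx

private theorem cir_prd {α β : Type*} {x y : ℕ} (hx : Nat.card α ≤ x) (hy : Nat.card β ≤ y) :
    Nat.card (α × β) ≤ x * y := by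
  rw [Nat.card_prod]
  exact Nat.mul_le_mul hx hy

private theorem cir_rc {α β : Type*} [Finite α] (f : α → β) {c : ℕ} (hc : Nat.card α ≤ c) :
    (range f).Finite ∧ (range f).ncard ≤ c := by
  refine ⟨finite_range f, ?_⟩
  rw [← image_univ]
  refine (ncard_image_le finite_univ).trans ?_
  rw [ncard_univ]
  exact hc

private theorem cir_un {β : Type*} {S S' : Set β} {c c' : ℕ} (h : S.Finite ∧ S.ncard ≤ c)
    (h' : S'.Finite ∧ S'.ncard ≤ c') : (S ∪ S').Finite ∧ (S ∪ S').ncard ≤ c + c' :=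
  ⟨h.1.union h'.1, (ncard_union_le S S').trans (Nat.add_le_add h.2 h'.2)⟩

private theorem cir_fin {β : Type*} {S S' : Set β} {c c' : ℕ} (h : S'.Finite ∧ S'.ncard ≤ c') (hc : c' ≤ c)
    (hS : S ⊆ S') : S.Finite ∧ S.ncard ≤ c :=
  ⟨h.1.subset hS, (ncard_le_ncard hS h.1).trans (h.2.trans hc)⟩

/-- the number of the good names -/
theorem good_card {T : Set (Ax Rel)} {D : Sd P} {L k : ℕ} {a : ℕ → Atom Rel P} {MM RR : Set (Subgroup D.G)}
    (h : SDat T D L k a MM RR) (B : ℕ)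
    (h1 : L + 1 ≤ B) (h2 : D.LL.ncard ≤ B) (h3 : MM.ncard ≤ B) (h4 : RR.ncard ≤ B)
    (h5 : ∀ l ∈ D.LL, (oo (⊥ : Subgroup D.G) l).index ≤ B) (h6 : ∀ M ∈ MM, M.index ≤ B) (h7 : ∀ X ∈ RR, X.index ≤ B)
    (h8 : Nat.card (Σ A : T, (Fin A.1.k → P)) ≤ B) :
    {x | Good T D L a MM RR x}.Finite ∧ {x | Good T D L a MM RR x}.ncard ≤ 15 * B ^ 4 := by
  have hfP := h.fP
  have hfT := h.fT.to_subtype
  have hfL := D.lfin.to_subtype
  have hfS : Finite (Subgroup D.G) := inferInstance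
  have hB : 1 ≤ B := by omega
  have hp : ∀ {n : ℕ}, n ≤ 4 → B ^ n ≤ B ^ 4 := fun hn => Nat.pow_le_pow_right hB hn
  have hF0 : Nat.card (Fin L) ≤ B := by
    rw [Nat.card_fin]
    omega
  have hF1 : Nat.card (Fin (L + 1)) ≤ B := by
    rw [Nat.card_fin]
    omega
  have hL0 : Nat.card D.LL ≤ B := h2
  have hM0 : Nat.card MM ≤ B := h3
  have hR0 : Nat.card RR ≤ B := h4
  have c0 := cir_rc (fun _ : Unit => (SNod.tt : SNod D a)) (c := B ^ 4) (by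
    rw [Nat.card_unique]
    exact Nat.one_le_pow _ _ hB)
  have c1 := cir_rc (fun s : Fin L => (SNod.V (a s) : SNod D a)) (c := B ^ 4)
    (hF0.trans (by simpa using hp (n := 1) (by norm_num)))
  have c2 := cir_rc (fun i : Fin (L + 1) × Σ l : D.LL, D.G ⧸ (oo ⊥ l.1 : Subgroup D.G) =>
    (SNod.be i.1 i.2.1 i.2.2 : SNod D a)) (c := B ^ 4)
    ((cir_prd hF1 (cir_sig hL0 fun l => h5 l.1 l.2)).trans (by
      rw [show B * (B * B) = B ^ 3 by ring]
      exact hp (by norm_num)))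
  have c3 := cir_rc (fun i : Fin (L + 1) × D.LL × Σ X : RR, D.G ⧸ X.1 =>
    (SNod.bb i.1 i.2.1 i.2.2.1 i.2.2.2 : SNod D a)) (c := B ^ 4)
    ((cir_prd hF1 (cir_prd hL0 (cir_sig hR0 fun X => h7 X.1 X.2))).trans (by
      rw [show B * (B * (B * B)) = B ^ 4 by ring]))
  have c4 := cir_rc (fun i : Fin (L + 1) × Σ M : MM, D.G ⧸ M.1 =>
    (SNod.Y i.1 i.2.1 i.2.2 : SNod D a)) (c := B ^ 4)
    ((cir_prd hF1 (cir_sig hM0 fun M => h6 M.1 M.2)).trans (by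
      rw [show B * (B * B) = B ^ 3 by ring]
      exact hp (by norm_num)))
  have c5 := cir_rc (fun i : Fin (L + 1) × MM × Σ X : RR, D.G ⧸ X.1 =>
    (SNod.Z i.1 i.2.1 i.2.2.1 i.2.2.2 : SNod D a)) (c := B ^ 4)
    ((cir_prd hF1 (cir_prd hM0 (cir_sig hR0 fun X => h7 X.1 X.2))).trans (by
      rw [show B * (B * (B * B)) = B ^ 4 by ring]))
  have hQ : Nat.card (Fin (L + 1) × Σ s : Fin L, D.G ⧸ D.N (pts (a s))) ≤ B ^ 4 :=
    (cir_prd hF1 (cir_sig hF0 fun s => h6 _ (h.fam.mN _ (h.cd s s.2)))).trans (by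
      rw [show B * (B * B) = B ^ 3 by ring]
      exact hp (by norm_num))
  have c6 := cir_rc (fun i : Fin (L + 1) × Σ s : Fin L, D.G ⧸ D.N (pts (a s)) =>
    (SNod.E i.2.1 i.1 i.2.2 : SNod D a)) (c := B ^ 4) hQ
  have c7 := cir_rc (fun i : Fin (L + 1) × Σ s : Fin L, D.G ⧸ D.N (pts (a s)) =>
    (SNod.U i.2.1 i.1 i.2.2 : SNod D a)) (c := B ^ 4) hQ
  have c8 := cir_rc (fun i : Fin L × Fin (L + 1) => (SNod.b i.1 i.2 : SNod D a)) (c := B ^ 4)
    ((cir_prd hF0 hF1).trans (by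
      rw [show B * B = B ^ 2 by ring]
      exact hp (by norm_num)))
  have c9 := cir_rc (fun i : Fin (L + 1) × Σ s : Fin L, D.G ⧸ D.N (pts (a s)) =>
    (SNod.K i.2.1 i.1 i.2.2 : SNod D a)) (c := B ^ 4) hQ
  have c10 := cir_rc (fun i : Σ s : Fin L, Σ l : D.LL, D.G ⧸ (oo ⊥ l.1 ⊓ D.N (pts (a s)) : Subgroup D.G) =>
    (SNod.J i.1 i.2.1 i.2.2 : SNod D a)) (c := B ^ 4)
    ((cir_sig hF0 fun s => cir_sig hL0 fun l => h6 _ (h.fam.mJ s s.2 l.1 l.2)).trans (by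
      rw [show B * (B * B) = B ^ 3 by ring]
      exact hp (by norm_num)))
  have c11 := cir_rc (fun i : Fin L × Σ l : D.LL, D.G ⧸ (oo ⊥ l.1 : Subgroup D.G) =>
    (SNod.Dn i.1 i.2.1 i.2.2 : SNod D a)) (c := B ^ 4)
    ((cir_prd hF0 (cir_sig hL0 fun l => h5 l.1 l.2)).trans (by
      rw [show B * (B * B) = B ^ 3 by ring]
      exact hp (by norm_num)))
  have c12 := cir_rc (fun s : Fin L => (SNod.cv (a s) : SNod D a)) (c := B ^ 4)
    (hF0.trans (by simpa using hp (n := 1) (by norm_num)))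
  have c13 := cir_rc (fun i : Σ A : T, (Fin A.1.k → P) => (SNod.W i.1.1 i.2 : SNod D a)) (c := B ^ 4)
    (h8.trans (by simpa using hp (n := 1) (by norm_num)))
  have c14 := cir_rc (fun i : Σ A : T, (Fin A.1.k → P) => (SNod.W0 i.1.1 i.2 : SNod D a)) (c := B ^ 4)
    (h8.trans (by simpa using hp (n := 1) (by norm_num)))
  have c := cir_un c0 (cir_un c1 (cir_un c2 (cir_un c3 (cir_un c4 (cir_un c5 (cir_un c6 (cir_un c7
    (cir_un c8 (cir_un c9 (cir_un c10 (cir_un c11 (cir_un c12 (cir_un c13 c14)))))))))))))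
  refine cir_fin c (le_of_eq (by ring)) ?_
  · intro x hx
    cases x with
    | tt => exact Or.inl ⟨(), rfl⟩
    | V x =>
      obtain ⟨s, hs, rfl⟩ := hx
      exact Or.inr (Or.inl ⟨⟨s, hs⟩, rfl⟩)
    | be s l y =>
      exact Or.inr (Or.inr (Or.inl ⟨(⟨s, Nat.lt_succ_of_le hx.1⟩, ⟨⟨l, hx.2⟩, y⟩), rfl⟩))
    | bb s l X y =>
      exact Or.inr (Or.inr (Or.inr (Or.inl ⟨(⟨s, Nat.lt_succ_of_le hx.1⟩, ⟨l, hx.2.1⟩, ⟨⟨X, hx.2.2⟩, y⟩), rfl⟩)))
    | Y s M y =>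
      exact Or.inr (Or.inr (Or.inr (Or.inr (Or.inl ⟨(⟨s, Nat.lt_succ_of_le hx.1⟩, ⟨⟨M, hx.2⟩, y⟩), rfl⟩))))
    | Z s M X y =>
      exact Or.inr (Or.inr (Or.inr (Or.inr (Or.inr (Or.inl ⟨(⟨s, Nat.lt_succ_of_le hx.1⟩,
        ⟨M, hx.2.1⟩, ⟨⟨X, hx.2.2⟩, y⟩), rfl⟩)))))
    | E s j q =>
      exact Or.inr (Or.inr (Or.inr (Or.inr (Or.inr (Or.inr (Or.inl ⟨(⟨j, Nat.lt_succ_of_le hx.2⟩,
        ⟨⟨s, hx.1⟩, q⟩), rfl⟩))))))
    | U s j q =>
      exact Or.inr (Or.inr (Or.inr (Or.inr (Or.inr (Or.inr (Or.inr (Or.inl ⟨(⟨j, Nat.lt_succ_of_lt hx.2⟩,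
        ⟨⟨s, hx.1⟩, q⟩), rfl⟩)))))))
    | b s j =>
      exact Or.inr (Or.inr (Or.inr (Or.inr (Or.inr (Or.inr (Or.inr (Or.inr (Or.inl
        ⟨(⟨s, hx.1⟩, ⟨j, Nat.lt_succ_of_lt hx.2⟩), rfl⟩))))))))
    | K s j q =>
      exact Or.inr (Or.inr (Or.inr (Or.inr (Or.inr (Or.inr (Or.inr (Or.inr (Or.inr (Or.inl
        ⟨(⟨j, Nat.lt_succ_of_lt hx.2⟩, ⟨⟨s, hx.1⟩, q⟩), rfl⟩)))))))))
    | J s l y =>
      exact Or.inr (Or.inr (Or.inr (Or.inr (Or.inr (Or.inr (Or.inr (Or.inr (Or.inr (Or.inr (Or.inl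
        ⟨⟨⟨s, hx.1⟩, ⟨⟨l, hx.2⟩, y⟩⟩, rfl⟩))))))))))
    | Dn s l y =>
      exact Or.inr (Or.inr (Or.inr (Or.inr (Or.inr (Or.inr (Or.inr (Or.inr (Or.inr (Or.inr (Or.inr (Or.inl
        ⟨(⟨s, hx.1⟩, ⟨⟨l, hx.2⟩, y⟩), rfl⟩)))))))))))
    | cv x =>
      obtain ⟨s, hs, rfl⟩ := hx
      exact Or.inr (Or.inr (Or.inr (Or.inr (Or.inr (Or.inr (Or.inr (Or.inr (Or.inr (Or.inr (Or.inr (Or.inr
        (Or.inl ⟨⟨s, hs⟩, rfl⟩))))))))))))
    | W A v =>
      exact Or.inr (Or.inr (Or.inr (Or.inr (Or.inr (Or.inr (Or.inr (Or.inr (Or.inr (Or.inr (Or.inr (Or.inr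
        (Or.inr (Or.inl ⟨⟨⟨A, hx⟩, v⟩, rfl⟩)))))))))))))
    | W0 A v =>
      exact Or.inr (Or.inr (Or.inr (Or.inr (Or.inr (Or.inr (Or.inr (Or.inr (Or.inr (Or.inr (Or.inr (Or.inr
        (Or.inr (Or.inr ⟨⟨⟨A, hx⟩, v⟩, rfl⟩)))))))))))))

section
variable {T : Set (Ax Rel)} {D : Sd P} {L k : ℕ} {a : ℕ → Atom Rel P} {MM RR : Set (Subgroup D.G)}

theorem good_fin (h : SDat T D L k a MM RR) : Finite (Gn T D L a MM RR) := by
  have hi : ∀ X : Subgroup D.G, X.index ≤ Nat.card D.G := fun X => Nat.le_of_dvd Nat.card_pos X.index_dvd_card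
  refine (good_card h (L + 1 + D.LL.ncard + MM.ncard + RR.ncard + Nat.card D.G +
    Nat.card (Σ A : T, (Fin A.1.k → P))) (by omega) (by omega) (by omega) (by omega)
    (fun l _ => (hi _).trans (by omega)) (fun M _ => (hi _).trans (by omega)) (fun X _ => (hi _).trans (by omega))
    (by omega)).1.to_subtype

theorem gate_children1 {N N' : Type} (f : P → P) (g : N → N')
    (x : Gate (Atom Rel P) N) : (x.map f g).children = Lit.map g '' x.children := by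
  cases x with
  | var v =>
    change (∅ : Set (Lit N')) = Lit.map g '' ∅
    rw [Set.image_empty]
  | and S => rfl
  | sym A S => rfl

/-- the circuit -/
noncomputable def cir (h : SDat T D L k a MM RR) : Circuit Rel P where
  N := Gn T D L a MM RR
  fin := good_fin h
  gate x := (gt D L a x.1).map id (mk T D L a MM RR)
  rank x := rk D L a x.1
  rank_lt := by
    rintro x y hy
    rw [gate_children1] at hy
    obtain ⟨z, hz, rfl⟩ := hy
    exact (rk_mk (T := T) (MM := MM) (RR := RR) z.node).trans_lt (rk_lt D L a x.1 z hz)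

/-- the gate of the node of a good name -/
theorem gate_mk (h : SDat T D L k a MM RR) {x : SNod D a} (hx : Good T D L a MM RR x) :
    (cir h).gate (mk T D L a MM RR x) = (gt D L a x).map id (mk T D L a MM RR) := by
  rw [mk_good hx]
  rfl

/-- the atoms at the elements of a coset are equal -/
theorem ga_coset {s j : ℕ} (ho : D.Orb (a s) (a j)) {x g : D.G}
    (hx : (x : D.G ⧸ D.N (pts (a s))) = (g : D.G ⧸ D.N (pts (a s)))) : D.ga x (a j) = D.ga g (a j) := by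
  obtain ⟨t, ht⟩ := ho
  have h1 : x⁻¹ * g ∈ D.N (pts (a s)) := QuotientGroup.eq.1 hx
  have h2 : D.act (x⁻¹ * g) = (D.act x)⁻¹ * D.act g := by rw [map_mul, map_inv]
  rw [ht]
  have h3 : ∀ i, D.act x (D.act t ((a s).2.2 i)) = D.act g (D.act t ((a s).2.2 i)) := by
    intro i
    have h4 := h1 ((a s).2.2 i) ⟨i, rfl⟩ t
    rw [h2, Equiv.Perm.mul_apply, Equiv.Perm.inv_eq_iff_eq] at h4
    exact h4.symm
  show (⟨_, _, fun i => D.act x (D.act t ((a s).2.2 i))⟩ : Atom Rel P) = ⟨_, _, fun i => D.act g (D.act t ((a s).2.2 i))⟩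
  rw [funext h3]

end

end Pool.Agent.H29.SV
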