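import Pool.Agent.H29.SV.SEx

/-!
# [H29 SV SClE] the survivors are closed under `x y⁻¹ z`

`hY`: closure of `Y s (N s)`. Let `w = x * y⁻¹ * z`. For `j < L` with `D.Orb (a s) (a j)` let `a i = D.ga (y⁻¹ * z) (a j)` (`H.st`; `D.Orb (a s) (a i)` by `orb_ga`): `D.ga w (a j) = D.ga x (a i)`, `D.ga y (a i) = D.ga z (a j)` (`ga_mul`). So
(1) `[pl (E x), pl (E y), pl (E z), pl (V (D.ga w (a j))), mi (b s j)]` from `E_b` for `x`, `i`; `b_E` for `y`, `i` (`b i → V (D.ga y (a i))`); `E_b` for `z`, `j` (cuts on `b s i` and `V (D.ga z (a j))`; `Rf.taut3`).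
Then for all `j ≤ L`: `[pl (E x), pl (E y), pl (E z), mi (E s j w)]` by induction on `j` (compare `mix_j` in `H29/NS/Mix.lean`): `j = 0`: `Rf.andF`, `gE0`: `hY` with `E_Y` for `x, y, z`. `j + 1`, `Orb`: `Rf.andF`, `gE1`: members `E s j w` (induction), `mi (K s j w)`: `K → V (D.ga w (a j))`, `K → ¬ b s j` (`gK`), (1). `¬ Orb`: `gE2`.
-/

set_option autoImplicit false

open Set

namespace Pool.Agent.H29.SV

open Pool.Agent.H42.CS Pool.Agent.H29.NS

variable {Rel : ℕ → Type} {P : Type} {T : Set (Ax Rel)} {D : Sd P} {C : Circuit Rel P} {L k : ℕ}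
  {a : ℕ → Atom Rel P} (H : SG T D C L k a)

private theorem scle_cut {f g l : List (Lit C.N)} (x : Lit C.N) (hf : Rf T C f) (hg : Rf T C g)
    (h1 : ∀ y ∈ f, y = x ∨ y ∈ l) (h2 : ∀ y ∈ g, y = x.neg ∨ y ∈ l) (hw : l.length ≤ 15) :
    Rf T C l :=
  Rf.cut x (hf.mono (fun y hy => List.mem_cons.2 (h1 y hy)) (by rw [List.length_cons]; omega))
    (hg.mono (fun y hy => List.mem_cons.2 (h2 y hy)) (by rw [List.length_cons]; omega)) (by omega)

private theorem SG.scle_V {s j : ℕ} (hs : s < L) (hj : j < L) (ho : D.Orb (a s) (a j))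
    (x y z : D.G) :
    Rf T C [pl (H.E s L x), pl (H.E s L y), pl (H.E s L z),
      pl (H.V (D.ga (x * y⁻¹ * z) (a j))), mi (H.b s j)] := by
  obtain ⟨i, hi, hia⟩ := H.st j hj (y⁻¹ * z)
  have hoi : D.Orb (a s) (a i) := by
    rw [← hia]
    exact orb_ga D ho _
  have e1 : D.ga (x * y⁻¹ * z) (a j) = D.ga x (a i) := by
    rw [← hia, ← ga_mul, mul_assoc]
  have e2 : D.ga y (a i) = D.ga z (a j) := by
    rw [← hia, ← ga_mul, mul_inv_cancel_left]
  have a1 := H.E_b hs hi hoi x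
  have a2 := H.b_E hs hi hoi y
  have a3 := H.E_b hs hj ho z
  rw [e1]
  rw [e2] at a2
  refine Rf.taut3 a1 a2 a3 _ (by simp) fun σ g1 g2 g3 => ?_
  simp only [List.mem_cons, List.not_mem_nil, or_false, exists_eq_or_imp, exists_eq_left] at g1 g2 g3 ⊢
  generalize σ (H.E s L x) = x1 at *
  generalize σ (H.E s L y) = x2 at *
  generalize σ (H.E s L z) = x3 at *
  generalize σ (H.b s j) = x4 at *
  generalize σ (H.b s i) = x5 at *
  generalize σ (H.V (D.ga x (a i))) = x6 at *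
  generalize σ (H.V (D.ga z (a j))) = x7 at *
  revert g1 g2 g3
  cases x1 <;> cases x2 <;> cases x3 <;> cases x4 <;> cases x5 <;> cases x6 <;> cases x7 <;> simp

private theorem SG.scle_j {s : ℕ} (hs : s < L)
    (hY : ∀ x y z, Rf T C [pl (H.Y s (D.N (pts (a s))) x), pl (H.Y s (D.N (pts (a s))) y),
      pl (H.Y s (D.N (pts (a s))) z), mi (H.Y s (D.N (pts (a s))) (x * y⁻¹ * z))]) (x y z : D.G) :
    ∀ j ≤ L, Rf T C [pl (H.E s L x), pl (H.E s L y), pl (H.E s L z),
      mi (H.E s j (x * y⁻¹ * z))] := by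
  intro j
  induction j with
  | zero =>
    intro _
    refine Rf.andF (H.gE0 s hs (x * y⁻¹ * z)) (by simp) ?_ (by simp)
    intro w hw
    rw [mem_singleton_iff] at hw
    subst hw
    have h0 := hY x y z
    have h1 : Rf T C [pl (H.E s L x), pl (H.Y s (D.N (pts (a s))) y),
        pl (H.Y s (D.N (pts (a s))) z), mi (H.Y s (D.N (pts (a s))) (x * y⁻¹ * z))] :=
      scle_cut (pl (H.Y s (D.N (pts (a s))) x)) h0 (H.E_Y hs le_rfl x) (by simp)
        (by simp [Lit.neg]) (by simp)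
    have h2 : Rf T C [pl (H.E s L x), pl (H.E s L y),
        pl (H.Y s (D.N (pts (a s))) z), mi (H.Y s (D.N (pts (a s))) (x * y⁻¹ * z))] :=
      scle_cut (pl (H.Y s (D.N (pts (a s))) y)) h1 (H.E_Y hs le_rfl y) (by simp)
        (by simp [Lit.neg]) (by simp)
    have h3 : Rf T C [pl (H.E s L x), pl (H.E s L y), pl (H.E s L z),
        mi (H.Y s (D.N (pts (a s))) (x * y⁻¹ * z))] :=
      scle_cut (pl (H.Y s (D.N (pts (a s))) z)) h2 (H.E_Y hs le_rfl z) (by simp)
        (by simp [Lit.neg]) (by simp)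
    exact h3.mono (by simp [Lit.neg]) (by simp)
  | succ j ih =>
    intro hj
    have hj' : j < L := hj
    have ih := ih hj'.le
    by_cases ho : D.Orb (a s) (a j)
    · refine Rf.andF (H.gE1 s hs j hj' ho (x * y⁻¹ * z)) (by simp) ?_ (by simp)
      intro w hw
      rw [mem_insert_iff, mem_singleton_iff] at hw
      rcases hw with rfl | rfl
      · exact ih.mono (by simp [Lit.neg]) (by simp)
      · have h1 := H.scle_V hs hj' ho x y z
        have h2 := Rf.andT (T := T) (H.gK s hs j hj' ho (x * y⁻¹ * z))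
          (mem_insert _ _)
        have h3 := Rf.andT (T := T) (H.gK s hs j hj' ho (x * y⁻¹ * z))
          (mem_insert_of_mem _ (mem_singleton _))
        have h4 : Rf T C [pl (H.K s j (x * y⁻¹ * z)),
            pl (H.E s L x), pl (H.E s L y), pl (H.E s L z), mi (H.b s j)] :=
          scle_cut (pl (H.V (D.ga (x * y⁻¹ * z) (a j)))) h1 h2
            (by simp) (by simp [Lit.neg]) (by simp)
        have h5 : Rf T C [pl (H.K s j (x * y⁻¹ * z)),
            pl (H.E s L x), pl (H.E s L y), pl (H.E s L z)] :=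
          scle_cut (pl (H.b s j)) h3 h4 (by simp [Lit.neg]) (by simp [Lit.neg]) (by simp)
        exact h5.mono (by simp [Lit.neg]) (by simp)
    · refine Rf.andF (H.gE2 s hs j hj' ho (x * y⁻¹ * z)) (by simp) ?_ (by simp)
      intro w hw
      rw [mem_singleton_iff] at hw
      subst hw
      exact ih.mono (by simp [Lit.neg]) (by simp)

theorem SG.clE {s : ℕ} (hs : s < L)
    (hY : ∀ x y z, Rf T C [pl (H.Y s (D.N (pts (a s))) x), pl (H.Y s (D.N (pts (a s))) y),
      pl (H.Y s (D.N (pts (a s))) z), mi (H.Y s (D.N (pts (a s))) (x * y⁻¹ * z))]) (x y z : D.G) :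
    Rf T C [pl (H.E s L x), pl (H.E s L y), pl (H.E s L z), mi (H.E s L (x * y⁻¹ * z))] :=
  H.scle_j hs hY x y z L le_rfl

end Pool.Agent.H29.SV
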