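import Pool.Agent.H29.NS.Tau
import Pool.Agent.H79.SL.Loc

/-!
# THEOREM SOLV (MP_576eff_lc): symmetric proofs for solvable groups, definitions (think 1631)

`oo M p` (`H79/SL/Oo`): the largest normal subgroup `W ≥ M` with `[W : M]` prime to `p`. `Sd P`: a solvable finite group `D.G` which acts on `P`, with a finite
set `D.LL` of primes which contains the primes of its order. `oo ⊥ l` is `O_l'`, `D.N o` the kernel of the action on the orbits of the points of `o`.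
The indices of the nodes of the gadget are elements of the group; a node is constant on the cosets of a normal subgroup.
`SG T D C L k a`: the gadget in the circuit `C`; `a 0, …, a (L - 1)` are all atoms of `T`; `N s` stands for `D.N (pts (a s))`:
* `V x`: the variable `x`; `be s l g`: the coset `g (oo ⊥ l)` is allowed in stage `s`; `bb s l X g`: no `x ∈ g X` is allowed (for `l`);
* `Y s M g` (`M` normal): for every prime some `x ∈ g (oo M l)` is allowed; `Z s M X g`: there is no `x ∈ g X` with `Y s M x`;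
* `E s j g`: `Y s (N s) g`, and `g` survives the first `j` comparisons on the orbit of `a s`; `b s j`: the value of the canonical structure at `a j`, as
  computed in stage `s`; `U s j g`: `E s j g` and the value at `g (a j)` is false; `K s j g`: the value at `g (a j)` is true and `b s j` is false;
* `J s l g`: `Y s (oo ⊥ l ⊓ N s) g` and `g` survives; `Dn s l g`: there is no `x ∈ g (oo ⊥ l)` with `J s l x`; `be (s+1) l g`: `be s l g` and not `Dn s l g`;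
* `cv x`: the value of the canonical structure at the atom `x`; `W A v`, `W0 A v`: the instance of the axiom `A` at `v` fails in the canonical structure, in
  the given structure.
`Cl s`, `Cp s`, `Ne s`: the three invariants of a stage (closure under `x y⁻¹ z`, pairwise compatibility, there is an allowed element).
-/

set_option autoImplicit false

open Set

namespace Pool.Agent.H29.SV

open Pool.Agent.H42.CS Pool.Agent.H29.NS
open Pool.Agent.H79.SL (oo nx Loc)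

variable {Rel : ℕ → Type} {P : Type}

/-- a solvable finite group, its primes, and an action on `P` -/
structure Sd (P : Type) where
  G : Type
  [grp : Group G]
  [fin : Finite G]
  [sol : Group.IsSolvable G]
  LL : Set ℕ
  lfin : LL.Finite
  lne : LL.Nonempty
  lp : ∀ l ∈ LL, l.Prime
  lall : ∀ p : ℕ, p.Prime → p ∣ Nat.card G → p ∈ LL
  act : G →* Equiv.Perm P

attribute [instance] Sd.grp Sd.fin Sd.sol

/-- the elements which fix all points of the orbits of the points of `o` -/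
def Sd.N (D : Sd P) (o : Set P) : Subgroup D.G where
  carrier := {x | ∀ p ∈ o, ∀ g : D.G, D.act x (D.act g p) = D.act g p}
  mul_mem' := by
    intro x y hx hy p hp g
    rw [map_mul, Equiv.Perm.mul_apply, hy p hp g, hx p hp g]
  one_mem' := by
    intro p _ g
    rw [map_one, Equiv.Perm.one_apply]
  inv_mem' := by
    intro x hx p hp g
    rw [map_inv, Equiv.Perm.inv_eq_iff_eq]
    exact (hx p hp g).symm

/-- the action on the atoms -/
def Sd.ga (D : Sd P) (g : D.G) (x : Atom Rel P) : Atom Rel P :=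
  ⟨x.1, x.2.1, fun i => D.act g (x.2.2 i)⟩

/-- `y` is in the orbit of `x` -/
def Sd.Orb (D : Sd P) (x y : Atom Rel P) : Prop := ∃ g, y = D.ga g x

/-- the conditions on the two families of normal subgroups -/
structure Fam (D : Sd P) (L k : ℕ) (a : ℕ → Atom Rel P) (MM RR : Set (Subgroup D.G)) : Prop where
  nor : ∀ M ∈ MM, M.Normal
  mtop : ⊤ ∈ MM
  mN : ∀ o : Set P, o.ncard ≤ k → D.N o ∈ MM
  mJ : ∀ s < L, ∀ l ∈ D.LL, oo ⊥ l ⊓ D.N (pts (a s)) ∈ MM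
  mJ2 : ∀ s < L, ∀ l ∈ D.LL, ∀ t ∈ D.LL, oo ⊥ l ⊓ oo ⊥ t ⊓ D.N (pts (a s)) ∈ MM
  mnx : ∀ M ∈ MM, nx M ∈ MM
  rnor : ∀ X ∈ RR, X.Normal
  rM : ∀ M ∈ MM, M ∈ RR
  roo : ∀ M ∈ MM, ∀ l ∈ D.LL, oo M l ∈ RR
  rnx : ∀ M ∈ MM, ∀ l ∈ D.LL, nx M ⊔ oo M l ∈ RR
  rbot : ∀ l ∈ D.LL, oo ⊥ l ∈ RR
  rsup : ∀ l ∈ D.LL, ∀ t ∈ D.LL, oo ⊥ l ⊔ oo ⊥ t ∈ RR

/-- the gadget of the canonisation -/
structure SG (T : Set (Ax Rel)) (D : Sd P) (C : Circuit Rel P) (L k : ℕ) (a : ℕ → Atom Rel P) where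
  MM : Set (Subgroup D.G)
  RR : Set (Subgroup D.G)
  V : Atom Rel P → C.N
  be : ℕ → ℕ → D.G → C.N
  bb : ℕ → ℕ → Subgroup D.G → D.G → C.N
  Y : ℕ → Subgroup D.G → D.G → C.N
  Z : ℕ → Subgroup D.G → Subgroup D.G → D.G → C.N
  E : ℕ → ℕ → D.G → C.N
  U : ℕ → ℕ → D.G → C.N
  b : ℕ → ℕ → C.N
  K : ℕ → ℕ → D.G → C.N
  J : ℕ → ℕ → D.G → C.N
  Dn : ℕ → ℕ → D.G → C.N
  cv : Atom Rel P → C.N
  W : (A : Ax Rel) → (Fin A.k → P) → C.N
  W0 : (A : Ax Rel) → (Fin A.k → P) → C.N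
  -- the atoms
  st : ∀ s < L, ∀ g, ∃ s' < L, D.ga g (a s) = a s'
  cd : ∀ s < L, (pts (a s)).ncard ≤ k
  inst : ∀ A ∈ T, ∀ (v : Fin A.k → P), ∀ x ∈ A.inst v, ∃ s < L, x.1 = a s
  vk : ∀ A ∈ T, A.k + 1 ≤ k
  -- the families of normal subgroups
  fam : Fam D L k a MM RR
  -- the nodes are constant on cosets
  ibe : ∀ s l g g', g⁻¹ * g' ∈ (oo ⊥ l : Subgroup D.G) → be s l g = be s l g'
  ibb : ∀ s l (X : Subgroup D.G) g g', g⁻¹ * g' ∈ X → bb s l X g = bb s l X g'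
  iY : ∀ s (M : Subgroup D.G) g g', g⁻¹ * g' ∈ M → Y s M g = Y s M g'
  iZ : ∀ s (M X : Subgroup D.G) g g', g⁻¹ * g' ∈ X → Z s M X g = Z s M X g'
  iE : ∀ s j g g', g⁻¹ * g' ∈ D.N (pts (a s)) → E s j g = E s j g'
  iJ : ∀ s l g g', g⁻¹ * g' ∈ (oo ⊥ l ⊓ D.N (pts (a s)) : Subgroup D.G) → J s l g = J s l g'
  iDn : ∀ s l g g', g⁻¹ * g' ∈ (oo ⊥ l : Subgroup D.G) → Dn s l g = Dn s l g'
  -- the gates
  gV : ∀ s < L, C.gate (V (a s)) = .var (a s)
  gbe0 : ∀ l ∈ D.LL, ∀ g, C.gate (be 0 l g) = .and ∅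
  gbe : ∀ s < L, ∀ l ∈ D.LL, ∀ g, C.gate (be (s + 1) l g) = .and {pl (be s l g), mi (Dn s l g)}
  gbb : ∀ s ≤ L, ∀ l ∈ D.LL, ∀ X ∈ RR, ∀ g, C.gate (bb s l X g) =
    .and {z | ∃ x, g⁻¹ * x ∈ X ∧ z = mi (be s l x)}
  gY : ∀ s ≤ L, ∀ M ∈ MM, ∀ g, C.gate (Y s M g) = .and {z | ∃ l ∈ D.LL, z = mi (bb s l (oo M l) g)}
  gZ : ∀ s ≤ L, ∀ M ∈ MM, ∀ X ∈ RR, M ≤ X → ∀ g, C.gate (Z s M X g) =
    .and {z | ∃ x, g⁻¹ * x ∈ X ∧ z = mi (Y s M x)}
  gE0 : ∀ s < L, ∀ g, C.gate (E s 0 g) = .and {pl (Y s (D.N (pts (a s))) g)}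
  gE1 : ∀ s < L, ∀ j < L, D.Orb (a s) (a j) → ∀ g, C.gate (E s (j + 1) g) = .and {pl (E s j g), mi (K s j g)}
  gE2 : ∀ s < L, ∀ j < L, ¬ D.Orb (a s) (a j) → ∀ g, C.gate (E s (j + 1) g) = .and {pl (E s j g)}
  gU : ∀ s < L, ∀ j < L, D.Orb (a s) (a j) → ∀ g, C.gate (U s j g) =
    .and {pl (E s j g), mi (V (D.ga g (a j)))}
  gb : ∀ s < L, ∀ j < L, D.Orb (a s) (a j) → C.gate (b s j) = .and (range fun g => mi (U s j g))
  gK : ∀ s < L, ∀ j < L, D.Orb (a s) (a j) → ∀ g, C.gate (K s j g) =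
    .and {pl (V (D.ga g (a j))), mi (b s j)}
  gJ : ∀ s < L, ∀ l ∈ D.LL, ∀ g, C.gate (J s l g) =
    .and {pl (Y s (oo ⊥ l ⊓ D.N (pts (a s))) g), pl (E s L g)}
  gDn : ∀ s < L, ∀ l ∈ D.LL, ∀ g, C.gate (Dn s l g) =
    .and {z | ∃ x, g⁻¹ * x ∈ (oo ⊥ l : Subgroup D.G) ∧ z = mi (J s l x)}
  gcv : ∀ s < L, C.gate (cv (a s)) = .and {pl (b s s)}
  gW : ∀ A ∈ T, ∀ v, C.gate (W A v) = .and {z | ∃ x ∈ A.inst v, z = ⟨cv x.1, !x.2⟩}
  gW0 : ∀ A ∈ T, ∀ v, C.gate (W0 A v) = .and {z | ∃ x ∈ A.inst v, z = ⟨V x.1, !x.2⟩}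

variable {T : Set (Ax Rel)} {D : Sd P} {C : Circuit Rel P} {L k : ℕ} {a : ℕ → Atom Rel P}

/-- closure -/
def SG.Cl (H : SG T D C L k a) (s : ℕ) : Prop := ∀ l ∈ D.LL, ∀ x y z,
  Rf T C [pl (H.be s l x), pl (H.be s l y), pl (H.be s l z), mi (H.be s l (x * y⁻¹ * z))]

/-- pairwise compatibility -/
def SG.Cp (H : SG T D C L k a) (s : ℕ) : Prop := ∀ l ∈ D.LL, ∀ t ∈ D.LL, ∀ x,
  Rf T C [pl (H.be s l x), pl (H.bb s t (oo ⊥ l ⊔ oo ⊥ t) x)]

/-- there is an allowed element -/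
def SG.Ne (H : SG T D C L k a) (s : ℕ) : Prop := ∀ l ∈ D.LL, Rf T C [pl (H.bb s l ⊤ 1)]

/-- the local data of a stage -/
def SG.loc (H : SG T D C L k a) {s : ℕ} (hs : s ≤ L) (h1 : H.Cl s) (h2 : H.Cp s) (h3 : H.Ne s) :
    Loc T C D.G D.LL (fun l => (l : ℕ)) where
  MM := H.MM
  RR := H.RR
  be := fun l => H.be s l
  bb := fun l => H.bb s l
  Y := H.Y s
  Z := H.Z s
  pp := fun l => D.lp l l.2
  inj := Subtype.val_injective
  ne := D.lne.to_subtype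
  all := fun p hp h => ⟨⟨p, D.lall p hp h⟩, rfl⟩
  mn := H.fam.nor
  rn := H.fam.rnor
  mr := H.fam.rM
  mt := H.fam.mtop
  mnx := H.fam.mnx
  moo := fun M hM l => H.fam.roo M hM l l.2
  mno := fun M hM l => H.fam.rnx M hM l l.2
  ro := fun l => H.fam.rbot l l.2
  roo := fun l t => H.fam.rsup l l.2 t t.2
  gbb := fun l X hX _ g => H.gbb s hs l l.2 X hX g
  gY := fun M hM g => (H.gY s hs M hM g).trans (congrArg Gate.and (Set.ext fun z =>
    ⟨fun ⟨l, hl, hz⟩ => ⟨⟨l, hl⟩, hz⟩, fun ⟨l, hz⟩ => ⟨l, l.2, hz⟩⟩))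
  gZ := fun M hM X hX h g => H.gZ s hs M hM X hX h g
  I1 := fun l => h1 l l.2
  I2 := fun l t => h2 l l.2 t t.2
  I3 := fun l => h3 l l.2

end Pool.Agent.H29.SV
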