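import Pool.Agent.H29.SV.SGr

/-!
# [H29 SV SEx] the survivors

Copies of the modules of `H29/NS` (`Be`: `E_down`, `E_Y`; `Eb`: `E_b`, `b_E`; `ExE`: `exE`) with elements `g : D.G` instead of classes `q` and `V (D.ga g (a j))` instead of `V (D.ga (D.rp q) (a j))`.
`E_down`: `[pl (E s i g), mi (E s j g)]`, `j ≤ i`: induction on `i` (`gE1`, `gE2`, `Rf.andT`). `E_Y`: `E_down` to `j = 0` and `gE0`. `E_b`, `b_E`: as in `NS/Eb`.
`up_E`: downward induction on `j ≤ L`: for all `g`: `Rf T C (pl (E s j g) :: Δ)`. From `j + 1` to `j` with `D.Orb (a s) (a j)`: (1) for all `g`: `pl (U s j g) :: Δ` (`U → E s j g`, `U → ¬ V`, `K → V`, so `¬ K`, so `E s (j+1) g` by `Rf.andF` and `gE1`: hypothesis);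
(2) `mi (b s j) :: Δ`: `Rf.andF`, `gb`; (3) `pl (E s j g) :: Δ`: cut on `K s j g` (`K → ¬ b s j`, (2); `¬ K → E s (j+1) g`). Without `Orb`: `gE2`. At the end `Y s (N s) g → E s 0 g` (`gE0`).
(Cuts: `Rf.cut` with `Rf.mono`; the lists have at most `Δ.length + 4 ≤ 12` members.)
-/

set_option autoImplicit false

open Set

namespace Pool.Agent.H29.SV

open Pool.Agent.H42.CS Pool.Agent.H29.NS

variable {Rel : ℕ → Type} {P : Type} {T : Set (Ax Rel)} {D : Sd P} {C : Circuit Rel P} {L k : ℕ}
  {a : ℕ → Atom Rel P} (H : SG T D C L k a)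

private theorem ex_trans {x y : C.N} {z : Lit C.N} (h : Rf T C [pl x, mi y]) (h' : Rf T C [pl y, z]) : Rf T C [pl x, z] := by
  refine Rf.taut2 h h' _ (by simp) fun σ h1 h2 => ?_
  simp only [List.mem_cons, List.not_mem_nil, or_false, exists_eq_or_imp, exists_eq_left] at h1 h2 ⊢
  rcases h2 with h2 | h2
  · rcases h1 with h1 | h1
    · exact Or.inl h1
    · exfalso
      cases hy : σ y
      · exact h1 hy
      · exact h2 hy
  · exact Or.inr h2

private theorem ex_refl (x : C.N) : Rf T C [pl x, mi x] :=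
  Rf.triv (pl x) (by simp) (by simp [Lit.neg]) (by simp)

private theorem ex_res {l f g : List (Lit C.N)} (n : C.N) (h : Rf T C f) (hf : ∀ y ∈ f, y ∈ pl n :: l)
    (h' : Rf T C g) (hg : ∀ y ∈ g, y ∈ mi n :: l) (hw : l.length ≤ 15) : Rf T C l :=
  Rf.cut (pl n) (h.mono hf (by rw [List.length_cons]; omega))
    (h'.mono hg (by rw [List.length_cons]; omega)) (by omega)

/-- two facts with a common node -/
private theorem ex_t {A B V b X : C.N} {s t : Bool} (h1 : Rf T C [pl A, mi B])
    (h2 : Rf T C [pl B, pl X]) (h3 : Rf T C [⟨V, s⟩, ⟨b, t⟩, mi X]) :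
    Rf T C [pl A, ⟨V, s⟩, ⟨b, t⟩] := by
  refine Rf.taut3 h1 h2 h3 _ (by simp) fun σ g1 g2 g3 => ?_
  simp only [List.mem_cons, List.not_mem_nil, or_false, exists_eq_or_imp, exists_eq_left] at g1 g2 g3 ⊢
  rcases g3 with g3 | g3 | g3
  · exact Or.inr (Or.inl g3)
  · exact Or.inr (Or.inr g3)
  · have hX : σ X = true := by
      cases h : σ X
      · exact absurd h g3
      · rfl
    have hB : σ B ≠ true := by
      rcases g2 with g2 | g2
      · exact g2
      · exact absurd hX g2
    have hB2 : σ B = false := by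
      cases h : σ B
      · rfl
      · exact absurd h hB
    rcases g1 with g1 | g1
    · exact Or.inl g1
    · exact absurd hB2 g1

theorem SG.E_down {s i j : ℕ} (hs : s < L) (hi : i ≤ L) (hj : j ≤ i) (g : D.G) :
    Rf T C [pl (H.E s i g), mi (H.E s j g)] := by
  induction i, hj using Nat.le_induction with
  | base => exact ex_refl _
  | succ t ht ih =>
    have h1 : Rf T C [pl (H.E s (t + 1) g), mi (H.E s t g)] := by
      by_cases hO : D.Orb (a s) (a t)
      · exact Rf.andT (x := pl (H.E s t g)) (H.gE1 s hs t (by omega) hO g) (Or.inl rfl)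
      · exact Rf.andT (x := pl (H.E s t g)) (H.gE2 s hs t (by omega) hO g) rfl
    exact ex_trans h1 (ih (by omega))

theorem SG.E_Y {s i : ℕ} (hs : s < L) (hi : i ≤ L) (g : D.G) :
    Rf T C [pl (H.E s i g), mi (H.Y s (D.N (pts (a s))) g)] :=
  ex_trans (H.E_down hs hi (Nat.zero_le i) g)
    (Rf.andT (x := pl (H.Y s (D.N (pts (a s))) g)) (H.gE0 s hs g) rfl)

theorem SG.E_b {s j : ℕ} (hs : s < L) (hj : j < L) (ho : D.Orb (a s) (a j)) (g : D.G) :
    Rf T C [pl (H.E s L g), pl (H.V (D.ga g (a j))), mi (H.b s j)] := by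
  have h1 := H.E_down hs le_rfl (show j + 1 ≤ L by omega) g
  have h2 : Rf T C [pl (H.E s (j + 1) g), pl (H.K s j g)] :=
    Rf.andT (x := mi (H.K s j g)) (H.gE1 s hs j hj ho g) (Or.inr rfl)
  have h3 : Rf T C [pl (H.V (D.ga g (a j))), mi (H.b s j), mi (H.K s j g)] := by
    refine Rf.andF (H.gK s hs j hj ho g) (by simp) (fun x hx => ?_) (by simp)
    rcases hx with rfl | hx
    · exact Rf.triv (pl (H.V (D.ga g (a j)))) (by simp) (by simp [Lit.neg]) (by simp)
    · rw [mem_singleton_iff.1 hx]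
      exact Rf.triv (mi (H.b s j)) (by simp) (by simp [Lit.neg]) (by simp)
  exact ex_t h1 h2 h3

theorem SG.b_E {s j : ℕ} (hs : s < L) (hj : j < L) (ho : D.Orb (a s) (a j)) (g : D.G) :
    Rf T C [pl (H.E s L g), mi (H.V (D.ga g (a j))), pl (H.b s j)] := by
  have h1 := H.E_down hs le_rfl (show j ≤ L by omega) g
  have h2 : Rf T C [pl (H.b s j), pl (H.U s j g)] :=
    Rf.andT (x := mi (H.U s j g)) (H.gb s hs j hj ho) ⟨g, rfl⟩
  have h3 : Rf T C [pl (H.E s j g), mi (H.V (D.ga g (a j))), mi (H.U s j g)] := by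
    refine Rf.andF (H.gU s hs j hj ho g) (by simp) (fun x hx => ?_) (by simp)
    rcases hx with rfl | hx
    · exact Rf.triv (pl (H.E s j g)) (by simp) (by simp [Lit.neg]) (by simp)
    · rw [mem_singleton_iff.1 hx]
      exact Rf.triv (mi (H.V (D.ga g (a j)))) (by simp) (by simp [Lit.neg]) (by simp)
  refine Rf.taut3 h1 h2 h3 _ (by simp) fun σ g1 g2 g3 => ?_
  simp only [List.mem_cons, List.not_mem_nil, or_false, exists_eq_or_imp, exists_eq_left] at g1 g2 g3 ⊢
  generalize σ (H.E s L g) = x1 at *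
  generalize σ (H.E s j g) = x2 at *
  generalize σ (H.b s j) = x3 at *
  generalize σ (H.U s j g) = x4 at *
  generalize σ (H.V (D.ga g (a j))) = x5 at *
  revert g1 g2 g3
  cases x1 <;> cases x2 <;> cases x3 <;> cases x4 <;> cases x5 <;> simp

private theorem SG.ex_step {s j : ℕ} (hs : s < L) (hj : j < L) (Δ : List (Lit C.N)) (hΔ : Δ.length ≤ 8)
    (h : ∀ g, Rf T C (pl (H.E s (j + 1) g) :: Δ)) (g : D.G) : Rf T C (pl (H.E s j g) :: Δ) := by
  by_cases hO : D.Orb (a s) (a j)
  · have a4 : ∀ g : D.G, Rf T C [mi (H.E s (j + 1) g), pl (H.E s j g), mi (H.K s j g)] := by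
      intro g
      refine Rf.andF (H.gE1 s hs j hj hO g) (by simp) (fun x hx => ?_) (by simp)
      rcases hx with rfl | hx
      · exact Rf.triv (pl (H.E s j g)) (by simp) List.mem_cons_self (by simp)
      · rw [mem_singleton_iff.1 hx]
        exact Rf.triv (mi (H.K s j g)) (by simp) List.mem_cons_self (by simp)
    have b1 : ∀ g : D.G, Rf T C (pl (H.U s j g) :: Δ) := by
      intro g
      have a1 : Rf T C [pl (H.U s j g), mi (H.E s j g)] :=
        Rf.andT (x := pl (H.E s j g)) (H.gU s hs j hj hO g) (by simp)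
      have a2 : Rf T C [pl (H.U s j g), pl (H.V (D.ga g (a j)))] :=
        Rf.andT (x := mi (H.V (D.ga g (a j)))) (H.gU s hs j hj hO g) (by simp)
      have a3 : Rf T C [pl (H.K s j g), mi (H.V (D.ga g (a j)))] :=
        Rf.andT (x := pl (H.V (D.ga g (a j)))) (H.gK s hs j hj hO g) (by simp)
      have d1 : Rf T C [pl (H.U s j g), pl (H.K s j g)] :=
        ex_res (H.V (D.ga g (a j))) a2 (by simp) a3 (by simp) (by simp)
      have d2 : Rf T C [pl (H.U s j g), mi (H.E s (j + 1) g)] := by
        refine ex_res (H.K s j g) (f := pl (H.K s j g) ::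
          [pl (H.U s j g), mi (H.E s (j + 1) g)]) ?_ (by simp) (g := mi (H.K s j g) ::
          [pl (H.U s j g), mi (H.E s (j + 1) g)]) ?_ (by simp) (by simp)
        · exact d1.mono (by simp) (by simp)
        · exact ex_res (H.E s j g) (a4 g) (by simp) a1 (by simp) (by simp)
      refine ex_res (H.E s (j + 1) g) (h g) ?_ d2 (by simp) (by simp only [List.length_cons]; omega)
      intro y hy
      simp only [List.mem_cons] at hy ⊢
      tauto
    have b2 : Rf T C (mi (H.b s j) :: Δ) := by
      refine Rf.andF (H.gb s hs j hj hO) List.mem_cons_self (fun x hx => ?_)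
        (by simp only [List.length_cons]; omega)
      obtain ⟨g, rfl⟩ := hx
      refine (b1 g).mono ?_ (by simp only [List.length_cons]; omega)
      intro y hy
      simp only [List.mem_cons] at hy ⊢
      rcases hy with hy | hy
      · exact Or.inl hy
      · exact Or.inr (Or.inr hy)
    have a6 : Rf T C [pl (H.K s j g), pl (H.b s j)] :=
      Rf.andT (x := mi (H.b s j)) (H.gK s hs j hj hO g) (by simp)
    have d3 : Rf T C (pl (H.K s j g) :: Δ) := by
      refine ex_res (H.b s j) a6 (by simp) b2 ?_ (by simp only [List.length_cons]; omega)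
      intro y hy
      simp only [List.mem_cons] at hy ⊢
      tauto
    have d4 : Rf T C (mi (H.K s j g) :: pl (H.E s j g) :: Δ) := by
      refine ex_res (H.E s (j + 1) g) (h g) ?_ (a4 g) (by simp) (by simp only [List.length_cons]; omega)
      intro y hy
      simp only [List.mem_cons] at hy ⊢
      tauto
    refine ex_res (H.K s j g) d3 ?_ d4 ?_ (by simp only [List.length_cons]; omega)
    · intro y hy
      simp only [List.mem_cons] at hy ⊢
      tauto
    · intro y hy
      exact hy
  · have a4 : Rf T C [mi (H.E s (j + 1) g), pl (H.E s j g)] := by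
      refine Rf.andF (H.gE2 s hs j hj hO g) (by simp) (fun x hx => ?_) (by simp)
      rw [mem_singleton_iff.1 hx]
      exact Rf.triv (pl (H.E s j g)) (by simp) List.mem_cons_self (by simp)
    refine ex_res (H.E s (j + 1) g) (h g) ?_ a4 (by simp) (by simp only [List.length_cons]; omega)
    intro y hy
    simp only [List.mem_cons] at hy ⊢
    tauto

theorem SG.up_E {s : ℕ} (hs : s < L) (Δ : List (Lit C.N)) (hΔ : Δ.length ≤ 8)
    (h : ∀ g, Rf T C (pl (H.E s L g) :: Δ)) (g : D.G) : Rf T C (pl (H.Y s (D.N (pts (a s))) g) :: Δ) := by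
  have key : ∀ n ≤ L, ∀ g, Rf T C (pl (H.E s (L - n) g) :: Δ) := by
    intro n
    induction n with
    | zero =>
      intro _ g
      exact h g
    | succ n ih =>
      intro hn g
      have h1 : L - (n + 1) + 1 = L - n := by omega
      refine H.ex_step hs (by omega) Δ hΔ (fun g => ?_) g
      rw [h1]
      exact ih (by omega) g
  have h0 := key L le_rfl g
  rw [Nat.sub_self] at h0
  have a1 : Rf T C [mi (H.E s 0 g), pl (H.Y s (D.N (pts (a s))) g)] := by
    refine Rf.andF (H.gE0 s hs g) (by simp) (fun x hx => ?_) (by simp)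
    rw [mem_singleton_iff.1 hx]
    exact Rf.triv (pl (H.Y s (D.N (pts (a s))) g)) (by simp) List.mem_cons_self (by simp)
  refine ex_res (H.E s 0 g) h0 ?_ a1 (by simp) (by simp only [List.length_cons]; omega)
  intro y hy
  simp only [List.mem_cons] at hy ⊢
  tauto

end Pool.Agent.H29.SV
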