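import Pool.Agent.H81.SV.P4
import Pool.Agent.H29.NS.NilG

/-!
# [H29 SV SRad] THEOREM SOLV: the product of the primes of the index of a core

`PrimC c`: in a solvable group the index of the core of a maximal subgroup `M` is at most `M.index ^ c`. Then the product of the primes which
divide the index of the core of a subgroup `H` is at most `H.index ^ c` (a chain of maximal subgroups).
-/

set_option autoImplicit false

open Set

namespace Pool.Agent.H29.SV

/-- bound for the orders of primitive solvable groups -/
def PrimC (c : ℕ) : Prop := ∀ (G : Type) [Group G] [Finite G] [Group.IsSolvable G] (M : Subgroup G), IsCoatom M →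
  M.normalCore.index ≤ M.index ^ c

theorem tr_rad {c : ℕ} (hc : PrimC c) : ∀ (d : ℕ) (G : Type) [Group G] [Finite G] [Group.IsSolvable G]
    (H : Subgroup G), H.index = d → ∏ p ∈ (H.normalCore.index).primeFactors, p ≤ d ^ c := by
  classical
  intro d
  induction d using Nat.strong_induction_on with
  | _ d ih =>
    intro G _ _ _ H hd
    rcases eq_top_or_exists_le_coatom H with h | ⟨M, hM, hHM⟩
    · have h1 : H.normalCore.index = 1 := by
        rw [h, Subgroup.normalCore_eq_self, Subgroup.index_top]
      rw [h1, Nat.primeFactors_one, Finset.prod_empty, ← hd]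
      exact Nat.one_le_pow _ _ (Nat.pos_of_ne_zero Subgroup.index_ne_zero_of_finite)
    · have hH0 : H.index ≠ 0 := Subgroup.index_ne_zero_of_finite
      have hM0 : M.index ≠ 0 := Subgroup.index_ne_zero_of_finite
      have hR0 : H.relIndex M ≠ 0 := Subgroup.index_ne_zero_of_finite (H := H.subgroupOf M)
      have hmul := Subgroup.relIndex_mul_index hHM
      have hM1 : M.index ≠ 1 := fun h => hM.1 (Subgroup.index_eq_one.1 h)
      have hlt : H.relIndex M < d := by
        rw [← hd, ← hmul]
        have h2 : 2 ≤ M.index := by omega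
        have h3 : 0 < H.relIndex M := Nat.pos_of_ne_zero hR0
        nlinarith
      have h1 := ih (H.relIndex M) hlt M (H.subgroupOf M) rfl
      have h2 : ∏ p ∈ (M.normalCore.index).primeFactors, p ≤ M.index ^ c :=
        (Nat.le_of_dvd (Nat.pos_of_ne_zero Subgroup.index_ne_zero_of_finite)
          (Nat.prod_primeFactors_dvd _)).trans (hc G M hM)
      have hsub : (H.normalCore.index).primeFactors ⊆
          (M.normalCore.index).primeFactors ∪ ((H.subgroupOf M).normalCore.index).primeFactors := by
        intro p hp
        have hpp := Nat.prime_of_mem_primeFactors hp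
        rw [Finset.mem_union]
        by_contra hcon
        push Not at hcon
        obtain ⟨g, ⟨k, hk⟩, hg⟩ := (Pool.Agent.H81.SV.core_prime H hpp).1 hp
        have hgM : g ∈ M := by
          by_contra hgM
          exact hcon.1 ((Pool.Agent.H81.SV.core_prime M hpp).2 ⟨g, ⟨k, hk⟩, hgM⟩)
        apply hcon.2
        rw [Pool.Agent.H81.SV.core_prime _ hpp]
        refine ⟨⟨g, hgM⟩, ⟨k, ?_⟩, fun h => hg ?_⟩
        · apply Subtype.ext
          push_cast
          exact hk
        · exact Subgroup.mem_subgroupOf.1 h
      have h3 : ∏ p ∈ (H.normalCore.index).primeFactors, p ≤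
          ∏ p ∈ (M.normalCore.index).primeFactors ∪ ((H.subgroupOf M).normalCore.index).primeFactors, p := by
        refine Finset.prod_le_prod_of_subset_of_one_le' hsub fun p hp _ => ?_
        rcases Finset.mem_union.1 hp with hp | hp
        · exact (Nat.prime_of_mem_primeFactors hp).one_le
        · exact (Nat.prime_of_mem_primeFactors hp).one_le
      have h4 : ∏ p ∈ (M.normalCore.index).primeFactors ∪ ((H.subgroupOf M).normalCore.index).primeFactors, p ≤
          (∏ p ∈ (M.normalCore.index).primeFactors, p) *
            ∏ p ∈ ((H.subgroupOf M).normalCore.index).primeFactors, p := by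
        rw [← Finset.prod_union_inter]
        refine Nat.le_mul_of_pos_right _ (Finset.prod_pos fun p hp => ?_)
        exact (Nat.prime_of_mem_primeFactors (Finset.mem_inter.1 hp).1).pos
      refine h3.trans (h4.trans ((Nat.mul_le_mul h2 h1).trans ?_))
      rw [← mul_pow, Nat.mul_comm, hmul, hd]

/-- the index of the core, for a group whose order is not divided by `p ^ (h + 1)` -/
theorem core_rad {c : ℕ} (hc : PrimC c) {G : Type} [Group G] [Finite G] [Group.IsSolvable G] (H : Subgroup G) {h : ℕ}
    (hh : ∀ p : ℕ, p.Prime → ¬ p ^ (h + 1) ∣ Nat.card G) : H.normalCore.index ≤ H.index ^ (c * h) := by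
  obtain ⟨i, hi⟩ : ∃ i, i = H.normalCore.index := ⟨_, rfl⟩
  have hi0 : i ≠ 0 := by
    rw [hi]
    exact Subgroup.index_ne_zero_of_finite
  have hid : i ∣ Nat.card G := by
    rw [hi]
    exact Subgroup.index_dvd_card _
  have h1 : ∀ p ∈ i.primeFactors, i.factorization p ≤ h := by
    intro p hp
    by_contra hc
    push Not at hc
    exact hh p (Nat.prime_of_mem_primeFactors hp) ((pow_dvd_pow p hc).trans ((Nat.ordProj_dvd i p).trans hid))
  have h4 : i ≤ (∏ p ∈ i.primeFactors, p) ^ h := by
    conv_lhs => rw [← Nat.prod_factorization_pow_eq_self hi0]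
    rw [Finsupp.prod, Nat.support_factorization, ← Finset.prod_pow]
    exact Finset.prod_le_prod' fun p hp =>
      Nat.pow_le_pow_right (Nat.prime_of_mem_primeFactors hp).pos (h1 p hp)
  rw [← hi, pow_mul]
  refine h4.trans (Nat.pow_le_pow_left ?_ h)
  rw [hi]
  exact tr_rad hc _ G H rfl

/-- transitive constituents of a solvable group of permutations -/
theorem core_sol {c : ℕ} (hc : PrimC c) {n : ℕ} {Γ : Subgroup (Equiv.Perm (Fin n))} (hΓ : Group.IsSolvable Γ) {h : ℕ}
    (hh : ∀ p : ℕ, p.Prime → ¬ p ^ (h + 1) ∣ Nat.card Γ) (x : Fin n) :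
    (MulAction.stabilizer Γ x).normalCore.index ≤ n ^ (c * h) := by
  refine (core_rad hc (MulAction.stabilizer Γ x) hh).trans (Nat.pow_le_pow_left ?_ _)
  rw [MulAction.index_stabilizer]
  have h2 : (MulAction.orbit Γ x).ncard ≤ (Set.univ : Set (Fin n)).ncard :=
    Set.ncard_le_ncard (Set.subset_univ _) (Set.toFinite _)
  rwa [Set.ncard_univ, Nat.card_eq_fintype_card, Fintype.card_fin] at h2

end Pool.Agent.H29.SV
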