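import Pool.Agent.H29.SV.SFin
import Pool.Agent.H29.SV.SRad

/-!
# THEOREM SOLV for groups whose order is not divided by `p ^ (h + 1)`

`OoC c`: in a solvable group `G`, if all `p`-subgroups have at most `S` elements, then `|G / O_p'(G)| ≤ S ^ c`.
With `PrimC c` and `OoC c`: a symmetric refutation of size at most `|Γ : H| |R| n ^ (c' (h + 1))`, for every solvable subgroup `H`
of `Γ` whose order is not divided by `p ^ (h + 1)`, for all primes `p`.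
-/

set_option autoImplicit false

open Set

namespace Pool.Agent.H29.SV

open Pool.Agent.H42.CS Pool.Agent.H29.NS
open Pool.Agent.H79.SL (oo nx Loc)

variable {Rel : ℕ → Type}

/-- bound for the index of `O_p'` -/
def OoC (c : ℕ) : Prop := ∀ (G : Type) [Group G] [Finite G] [Group.IsSolvable G] (p S : ℕ), p.Prime →
  (∀ K : Subgroup G, IsPGroup p K → Nat.card K ≤ S) → (oo (⊥ : Subgroup G) p).index ≤ S ^ c

private theorem pgroup_le {n : ℕ} (hn : 1 ≤ n) {Γ : Subgroup (Equiv.Perm (Fin n))} {h : ℕ}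
    (hh : ∀ p : ℕ, p.Prime → ¬ p ^ (h + 1) ∣ Nat.card Γ) {p : ℕ} (hp : p.Prime) (K : Subgroup Γ)
    (hK : IsPGroup p K) : Nat.card K ≤ n ^ h := by
  have : Fact p.Prime := ⟨hp⟩
  obtain ⟨P, hP⟩ := hK.exists_le_sylow
  exact (Nat.le_of_dvd Nat.card_pos (Subgroup.card_dvd_of_le hP)).trans (sylow_exp hn hh P)

theorem solv_exp {c1 c2 : ℕ} (h1 : PrimC c1) (h2 : OoC c2) {T : Set (Ax Rel)} (hT : T.Finite)
    (hl : ∀ A ∈ T, A.lits.Finite ∧ A.ex.Finite) :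
    ∃ c : ℕ, ∀ (n h : ℕ) (Γ : Subgroup (Equiv.Perm (Fin n))), 2 ≤ n → Group.IsSolvable Γ →
      (∀ p : ℕ, p.Prime → ¬ p ^ (h + 1) ∣ Nat.card Γ) →
      ∀ R : Refutation T (Fin n), ∃ R' : Refutation T (Fin n), R'.Symm Γ ∧
        R'.size ≤ R.size * n ^ (c * (h + 1)) := by
  obtain ⟨c, hc⟩ := solv_main hT hl
  refine ⟨(1 + c1 + c2) * c, ?_⟩
  intro n h Γ hn hΓ hh R
  obtain ⟨R', h3, h4⟩ := hc n Γ (n ^ (c1 * h)) (n ^ (h * c2)) hn hΓ (fun x => core_sol h1 hΓ hh x)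
    (fun p hp => by
      rw [pow_mul]
      exact h2 Γ p (n ^ h) hp fun K hK => pgroup_le (by omega) hh hp K hK) R
  refine ⟨R', h3, h4.trans (Nat.mul_le_mul_left _ ?_)⟩
  have h5 : n * n ^ (c1 * h) * n ^ (h * c2) = n ^ (1 + c1 * h + h * c2) := by
    rw [pow_add, pow_add, pow_one]
  rw [h5, ← pow_mul]
  refine Nat.pow_le_pow_right (by omega) ?_
  have h6 : 1 + c1 * h + h * c2 ≤ (1 + c1 + c2) * (h + 1) := by nlinarith
  calc (1 + c1 * h + h * c2) * c ≤ (1 + c1 + c2) * (h + 1) * c := Nat.mul_le_mul_right _ h6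
    _ = (1 + c1 + c2) * c * (h + 1) := by ring

theorem solv_index_exp0 {c1 c2 : ℕ} (h1 : PrimC c1) (h2 : OoC c2) {T : Set (Ax Rel)} (hT : T.Finite)
    (hl : ∀ A ∈ T, A.lits.Finite ∧ A.ex.Finite) :
    ∃ c : ℕ, ∀ (n h : ℕ) (Γ H : Subgroup (Equiv.Perm (Fin n))), 2 ≤ n → H ≤ Γ → Group.IsSolvable H →
      (∀ p : ℕ, p.Prime → ¬ p ^ (h + 1) ∣ Nat.card H) →
      ∀ R : Refutation T (Fin n), ∃ R' : Refutation T (Fin n), R'.Symm Γ ∧
        R'.size ≤ H.relIndex Γ * (R.size * n ^ (c * (h + 1))) := by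
  obtain ⟨c, hc⟩ := solv_exp h1 h2 hT hl
  refine ⟨c, ?_⟩
  intro n h Γ H hn hH hs hh R
  obtain ⟨R1, h3, h4⟩ := hc n h H hn hs hh R
  obtain ⟨R2, h5, h6⟩ := sym_index hH R1 h3
  exact ⟨R2, h5, h6.trans (Nat.mul_le_mul_left _ h4)⟩

end Pool.Agent.H29.SV
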