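import Pool.Agent.H29.SV.SRad
import Pool.Agent.H79.SL.IrK

/-!
# [H29 SV SPrim] THEOREM SOLV: primitive solvable groups
-/

set_option autoImplicit false

open Set

namespace Pool.Agent.H29.SV

theorem prim8 : PrimC 8 := by
  intro G _ _ _ M hM
  obtain ⟨Q, i1, i2, i3, M', h1, h2, h3, h4⟩ := Pool.Agent.H81.SV.prim_quot hM
  obtain ⟨V, hV, hV1, hVc, hVM, hVM', hi, -, hC, hirr⟩ := Pool.Agent.H81.SV.prim_data h1 h2
  have h5 := Pool.Agent.H79.SL.thmI_conj hV hV1 hVc (fun U hU hUV => hirr U hUV fun m _ u hu => hU.conj_mem u hu m)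
  obtain ⟨C, hCd⟩ : ∃ C, C = Subgroup.centralizer (V : Set Q) := ⟨_, rfl⟩
  rw [← hCd] at h5 hC
  have h6 : Nat.card M' ≤ C.index := by
    have h7 : C.relIndex M' = Nat.card M' := by
      rw [← Subgroup.inf_relIndex_right, inf_comm, hC, Subgroup.relIndex_bot_left]
    have h8 : C.relIndex M' ≤ C.relIndex ⊤ :=
      Subgroup.relIndex_le_of_le_right le_top (by
        rw [Subgroup.relIndex_top_right]
        exact Subgroup.index_ne_zero_of_finite)
    rw [Subgroup.relIndex_top_right] at h8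
    omega
  rw [← h4, ← h3, ← Subgroup.card_mul_index M', hi]
  rw [← hi] at h5 ⊢
  have h9 : Nat.card M' ≤ M'.index ^ 7 := by omega
  calc Nat.card M' * M'.index ≤ M'.index ^ 7 * M'.index := Nat.mul_le_mul_right _ h9
    _ = M'.index ^ 8 := (pow_succ _ 7).symm

end Pool.Agent.H29.SV
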