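import Pool.Agent.H29.SV.SExp
import Pool.Agent.H29.SV.SPrim

/-!
# THEOREM SOLV, final form

For every finite set `T` of first-order axioms there is a number `c` such that for every group `Γ` of permutations of `n ≥ 2` points
and every solvable subgroup `H` of `Γ` a refutation `R` over these points gives a `Γ`-symmetric one of size at most
`|Γ : H| |R| n ^ (c (h + 1))`, if no `p ^ (h + 1)`, `p` prime, divides the order of `H`.
-/

set_option autoImplicit false

open Set

namespace Pool.Agent.H29.SV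

open Pool.Agent.H42.CS Pool.Agent.H29.NS

variable {Rel : ℕ → Type}

theorem solv_index_exp {T : Set (Ax Rel)} (hT : T.Finite) (hl : ∀ A ∈ T, A.lits.Finite ∧ A.ex.Finite) :
    ∃ c : ℕ, ∀ (n h : ℕ) (Γ H : Subgroup (Equiv.Perm (Fin n))), 2 ≤ n → H ≤ Γ → Group.IsSolvable H →
      (∀ p : ℕ, p.Prime → ¬ p ^ (h + 1) ∣ Nat.card H) →
      ∀ R : Refutation T (Fin n), ∃ R' : Refutation T (Fin n), R'.Symm Γ ∧
        R'.size ≤ H.relIndex Γ * (R.size * n ^ (c * (h + 1))) :=
  solv_index_exp0 prim8 (fun _ _ _ _ _ _ hp hS => Pool.Agent.H79.SL.oo_index_le8 hp hS) hT hl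

end Pool.Agent.H29.SV
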