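import Pool.Agent.H29.SV.SCir

/-!
# [H29 SV SGadC] THEOREM SOLV: the circuit contains the gadget

Port of `Pool/Agent/H29/NS/GadC.lean`. The fields are the gate equations: `gate_mk h`, then the image of the set of the children under
`Lit.map (mk T D L a MM RR)` is computed; the nodes are constant on the cosets by `QuotientGroup.eq`.
-/

set_option autoImplicit false

open Set

namespace Pool.Agent.H29.SV

open Pool.Agent.H42.CS Pool.Agent.H29.NS
open Pool.Agent.H79.SL (oo nx Loc)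

variable {Rel : ℕ → Type} {P : Type}

private theorem im_empty {N N' : Type} (f : N → N') : Lit.map f '' (∅ : Set (Lit N)) = ∅ := image_empty _

private theorem im_pair {N N' : Type} (f : N → N') (x y : Lit N) :
    Lit.map f '' {x, y} = {Lit.map f x, Lit.map f y} := image_pair _ _ _

private theorem im_single {N N' : Type} (f : N → N') (x : Lit N) :
    Lit.map f '' {x} = {Lit.map f x} := image_singleton

private theorem im_ex {N N' α : Type} (f : N → N') (p : α → Prop) (u : α → Lit N) :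
    Lit.map f '' {z | ∃ x, p x ∧ z = u x} = {z | ∃ x, p x ∧ z = Lit.map f (u x)} := by
  ext z
  constructor
  · rintro ⟨_, ⟨x, hx, rfl⟩, rfl⟩
    exact ⟨x, hx, rfl⟩
  · rintro ⟨x, hx, rfl⟩
    exact ⟨u x, ⟨x, hx, rfl⟩, rfl⟩

private theorem im_co {N N' G : Type} [Group G] (f : N → N') (X : Subgroup G) (g : G) (u : G → Lit N) :
    Lit.map f '' {z | ∃ x : G, (x : G ⧸ X) = (g : G ⧸ X) ∧ z = u x} =
      {z | ∃ x : G, g⁻¹ * x ∈ X ∧ z = Lit.map f (u x)} := by
  rw [im_ex]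
  ext z
  constructor
  · rintro ⟨x, hx, hz⟩
    exact ⟨x, QuotientGroup.eq.1 hx.symm, hz⟩
  · rintro ⟨x, hx, hz⟩
    exact ⟨x, (QuotientGroup.eq.2 hx).symm, hz⟩

private theorem im_range {N N' α : Type} (f : N → N') (u : α → Lit N) :
    Lit.map f '' range u = range fun x => Lit.map f (u x) := by
  rw [← range_comp]
  rfl

/-- the gadget in the circuit -/
noncomputable def gadC {T : Set (Ax Rel)} {D : Sd P} {L k : ℕ} {a : ℕ → Atom Rel P} {MM RR : Set (Subgroup D.G)}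
    (h : SDat T D L k a MM RR) : SG T D (cir h) L k a where
  MM := MM
  RR := RR
  V x := mk T D L a MM RR (.V x)
  be s l g := mk T D L a MM RR (.be s l (g : D.G ⧸ (oo ⊥ l : Subgroup D.G)))
  bb s l X g := mk T D L a MM RR (.bb s l X (g : D.G ⧸ X))
  Y s M g := mk T D L a MM RR (.Y s M (g : D.G ⧸ M))
  Z s M X g := mk T D L a MM RR (.Z s M X (g : D.G ⧸ X))
  E s j g := mk T D L a MM RR (.E s j (g : D.G ⧸ D.N (pts (a s))))
  U s j g := mk T D L a MM RR (.U s j (g : D.G ⧸ D.N (pts (a s))))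
  b s j := mk T D L a MM RR (.b s j)
  K s j g := mk T D L a MM RR (.K s j (g : D.G ⧸ D.N (pts (a s))))
  J s l g := mk T D L a MM RR (.J s l (g : D.G ⧸ (oo ⊥ l ⊓ D.N (pts (a s)) : Subgroup D.G)))
  Dn s l g := mk T D L a MM RR (.Dn s l (g : D.G ⧸ (oo ⊥ l : Subgroup D.G)))
  cv x := mk T D L a MM RR (.cv x)
  W A v := mk T D L a MM RR (.W A v)
  W0 A v := mk T D L a MM RR (.W0 A v)
  st := h.st
  cd := h.cd
  inst := h.inst
  vk := h.vk
  fam := h.fam
  ibe := fun s l _ _ hg => congrArg (fun y => mk T D L a MM RR (.be s l y)) (QuotientGroup.eq.2 hg)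
  ibb := fun s l X _ _ hg => congrArg (fun y => mk T D L a MM RR (.bb s l X y)) (QuotientGroup.eq.2 hg)
  iY := fun s M _ _ hg => congrArg (fun y => mk T D L a MM RR (.Y s M y)) (QuotientGroup.eq.2 hg)
  iZ := fun s M X _ _ hg => congrArg (fun y => mk T D L a MM RR (.Z s M X y)) (QuotientGroup.eq.2 hg)
  iE := fun s j _ _ hg => congrArg (fun y => mk T D L a MM RR (.E s j y)) (QuotientGroup.eq.2 hg)
  iJ := fun s l _ _ hg => congrArg (fun y => mk T D L a MM RR (.J s l y)) (QuotientGroup.eq.2 hg)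
  iDn := fun s l _ _ hg => congrArg (fun y => mk T D L a MM RR (.Dn s l y)) (QuotientGroup.eq.2 hg)
  gV := by
    intro s hs
    exact gate_mk h (x := .V (a s)) ⟨s, hs, rfl⟩
  gbe0 := by
    intro l hl g
    refine (gate_mk h (x := .be 0 l (g : D.G ⧸ (oo ⊥ l : Subgroup D.G))) ⟨Nat.zero_le _, hl⟩).trans ?_
    exact congrArg Gate.and (im_empty _)
  gbe := by
    intro s hs l hl g
    refine (gate_mk h (x := .be (s + 1) l (g : D.G ⧸ (oo ⊥ l : Subgroup D.G))) ⟨hs, hl⟩).trans ?_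
    show Gate.and (Lit.map _ '' {_, _}) = _
    rw [im_pair]
    rfl
  gbb := by
    intro s hs l hl X hX g
    refine (gate_mk h (x := .bb s l X (g : D.G ⧸ X)) ⟨hs, hl, hX⟩).trans ?_
    show Gate.and (Lit.map _ '' {z : Lit (SNod D a) | ∃ x : D.G, (x : D.G ⧸ X) = (g : D.G ⧸ X) ∧
      z = mi (.be s l (x : D.G ⧸ (oo ⊥ l : Subgroup D.G)))}) = _
    rw [im_co]
    rfl
  gY := by
    intro s hs M hM g
    have hn := h.fam.nor M hM
    refine (gate_mk h (x := .Y s M (g : D.G ⧸ M)) ⟨hs, hM⟩).trans ?_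
    have e : {z : Lit (SNod D a) | ∃ l ∈ D.LL, ∃ x : D.G, (x : D.G ⧸ M) = (g : D.G ⧸ M) ∧
        z = mi (.bb s l (oo M l) (x : D.G ⧸ oo M l))} =
        {z | ∃ l, l ∈ D.LL ∧ z = mi (.bb s l (oo M l) (g : D.G ⧸ oo M l))} := by
      ext z
      constructor
      · rintro ⟨l, hl, x, hx, rfl⟩
        refine ⟨l, hl, ?_⟩
        have h1 : (x : D.G ⧸ oo M l) = (g : D.G ⧸ oo M l) :=
          QuotientGroup.eq.2 (Pool.Agent.H79.SL.le_oo hn l (QuotientGroup.eq.1 hx))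
        rw [h1]
      · rintro ⟨l, hl, rfl⟩
        exact ⟨l, hl, g, rfl, rfl⟩
    show Gate.and (Lit.map _ '' {z : Lit (SNod D a) | ∃ l ∈ D.LL, ∃ x : D.G, (x : D.G ⧸ M) = (g : D.G ⧸ M) ∧
        z = mi (.bb s l (oo M l) (x : D.G ⧸ oo M l))}) = _
    rw [e, im_ex]
    rfl
  gZ := by
    intro s hs M hM X hX _ g
    refine (gate_mk h (x := .Z s M X (g : D.G ⧸ X)) ⟨hs, hM, hX⟩).trans ?_
    show Gate.and (Lit.map _ '' {z : Lit (SNod D a) | ∃ x : D.G, (x : D.G ⧸ X) = (g : D.G ⧸ X) ∧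
      z = mi (.Y s M (x : D.G ⧸ M))}) = _
    rw [im_co]
    rfl
  gE0 := by
    intro s hs g
    refine (gate_mk h (x := .E s 0 (g : D.G ⧸ D.N (pts (a s)))) ⟨hs, Nat.zero_le _⟩).trans ?_
    show Gate.and (Lit.map _ '' {_}) = _
    rw [im_single]
    rfl
  gE1 := by
    intro s hs j hj ho g
    refine (gate_mk h (x := .E s (j + 1) (g : D.G ⧸ D.N (pts (a s)))) ⟨hs, hj⟩).trans ?_
    have e : {z : Lit (SNod D a) | z = pl (.E s j (g : D.G ⧸ D.N (pts (a s)))) ∨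
        D.Orb (a s) (a j) ∧ z = mi (.K s j (g : D.G ⧸ D.N (pts (a s))))} =
        {pl (.E s j (g : D.G ⧸ D.N (pts (a s)))), mi (.K s j (g : D.G ⧸ D.N (pts (a s))))} := by
      ext z
      constructor
      · rintro (rfl | ⟨h', rfl⟩)
        · exact Or.inl rfl
        · exact Or.inr rfl
      · rintro (rfl | rfl)
        · exact Or.inl rfl
        · exact Or.inr ⟨ho, rfl⟩
    show Gate.and (Lit.map _ '' {z : Lit (SNod D a) | z = pl (.E s j (g : D.G ⧸ D.N (pts (a s)))) ∨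
        D.Orb (a s) (a j) ∧ z = mi (.K s j (g : D.G ⧸ D.N (pts (a s))))}) = _
    rw [e, im_pair]
    rfl
  gE2 := by
    intro s hs j hj ho g
    refine (gate_mk h (x := .E s (j + 1) (g : D.G ⧸ D.N (pts (a s)))) ⟨hs, hj⟩).trans ?_
    have e : {z : Lit (SNod D a) | z = pl (.E s j (g : D.G ⧸ D.N (pts (a s)))) ∨
        D.Orb (a s) (a j) ∧ z = mi (.K s j (g : D.G ⧸ D.N (pts (a s))))} =
        {pl (.E s j (g : D.G ⧸ D.N (pts (a s))))} := by
      ext z
      constructor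
      · rintro (rfl | ⟨h', rfl⟩)
        · rfl
        · exact absurd h' ho
      · rintro rfl
        exact Or.inl rfl
    show Gate.and (Lit.map _ '' {z : Lit (SNod D a) | z = pl (.E s j (g : D.G ⧸ D.N (pts (a s)))) ∨
        D.Orb (a s) (a j) ∧ z = mi (.K s j (g : D.G ⧸ D.N (pts (a s))))}) = _
    rw [e, im_single]
    rfl
  gU := by
    intro s hs j hj ho g
    refine (gate_mk h (x := .U s j (g : D.G ⧸ D.N (pts (a s)))) ⟨hs, hj⟩).trans ?_
    have e : {z : Lit (SNod D a) | D.Orb (a s) (a j) ∧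
        (z = pl (.E s j (g : D.G ⧸ D.N (pts (a s)))) ∨ ∃ x : D.G,
          (x : D.G ⧸ D.N (pts (a s))) = (g : D.G ⧸ D.N (pts (a s))) ∧ z = mi (.V (D.ga x (a j))))} =
        {pl (.E s j (g : D.G ⧸ D.N (pts (a s)))), mi (.V (D.ga g (a j)))} := by
      ext z
      constructor
      · rintro ⟨-, rfl | ⟨x, hx, rfl⟩⟩
        · exact Or.inl rfl
        · rw [ga_coset ho hx]
          exact Or.inr rfl
      · rintro (rfl | rfl)
        · exact ⟨ho, Or.inl rfl⟩
        · exact ⟨ho, Or.inr ⟨g, rfl, rfl⟩⟩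
    show Gate.and (Lit.map _ '' {z : Lit (SNod D a) | D.Orb (a s) (a j) ∧
        (z = pl (.E s j (g : D.G ⧸ D.N (pts (a s)))) ∨ ∃ x : D.G,
          (x : D.G ⧸ D.N (pts (a s))) = (g : D.G ⧸ D.N (pts (a s))) ∧ z = mi (.V (D.ga x (a j))))}) = _
    rw [e, im_pair]
    rfl
  gb := by
    intro s hs j hj _
    refine (gate_mk h (x := .b s j) ⟨hs, hj⟩).trans ?_
    show Gate.and (Lit.map _ '' range fun y : D.G ⧸ D.N (pts (a s)) => mi (SNod.U s j y)) = _
    rw [im_range]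
    refine congrArg Gate.and ?_
    ext z
    constructor
    · rintro ⟨y, rfl⟩
      obtain ⟨g, rfl⟩ := QuotientGroup.mk_surjective y
      exact ⟨g, rfl⟩
    · rintro ⟨g, rfl⟩
      exact ⟨(g : D.G ⧸ D.N (pts (a s))), rfl⟩
  gK := by
    intro s hs j hj ho g
    refine (gate_mk h (x := .K s j (g : D.G ⧸ D.N (pts (a s)))) ⟨hs, hj⟩).trans ?_
    have e : {z : Lit (SNod D a) | D.Orb (a s) (a j) ∧
        ((∃ x : D.G, (x : D.G ⧸ D.N (pts (a s))) = (g : D.G ⧸ D.N (pts (a s))) ∧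
          z = pl (.V (D.ga x (a j)))) ∨ z = mi (.b s j))} =
        {pl (.V (D.ga g (a j))), mi (.b s j)} := by
      ext z
      constructor
      · rintro ⟨-, ⟨x, hx, rfl⟩ | rfl⟩
        · rw [ga_coset ho hx]
          exact Or.inl rfl
        · exact Or.inr rfl
      · rintro (rfl | rfl)
        · exact ⟨ho, Or.inl ⟨g, rfl, rfl⟩⟩
        · exact ⟨ho, Or.inr rfl⟩
    show Gate.and (Lit.map _ '' {z : Lit (SNod D a) | D.Orb (a s) (a j) ∧
        ((∃ x : D.G, (x : D.G ⧸ D.N (pts (a s))) = (g : D.G ⧸ D.N (pts (a s))) ∧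
          z = pl (.V (D.ga x (a j)))) ∨ z = mi (.b s j))}) = _
    rw [e, im_pair]
    rfl
  gJ := by
    intro s hs l hl g
    refine (gate_mk h (x := .J s l (g : D.G ⧸ (oo ⊥ l ⊓ D.N (pts (a s)) : Subgroup D.G))) ⟨hs, hl⟩).trans ?_
    have e : {z : Lit (SNod D a) | z = pl (.Y s (oo ⊥ l ⊓ D.N (pts (a s)))
        (g : D.G ⧸ (oo ⊥ l ⊓ D.N (pts (a s)) : Subgroup D.G))) ∨
        ∃ x : D.G, (x : D.G ⧸ (oo ⊥ l ⊓ D.N (pts (a s)) : Subgroup D.G)) =
          (g : D.G ⧸ (oo ⊥ l ⊓ D.N (pts (a s)) : Subgroup D.G)) ∧ z = pl (.E s L (x : D.G ⧸ D.N (pts (a s))))} =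
        {pl (.Y s (oo ⊥ l ⊓ D.N (pts (a s))) (g : D.G ⧸ (oo ⊥ l ⊓ D.N (pts (a s)) : Subgroup D.G))),
          pl (.E s L (g : D.G ⧸ D.N (pts (a s))))} := by
      ext z
      constructor
      · rintro (rfl | ⟨x, hx, rfl⟩)
        · exact Or.inl rfl
        · have h1 : (x : D.G ⧸ D.N (pts (a s))) = (g : D.G ⧸ D.N (pts (a s))) :=
            QuotientGroup.eq.2 (QuotientGroup.eq.1 hx).2
          rw [h1]
          exact Or.inr rfl
      · rintro (rfl | rfl)
        · exact Or.inl rfl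
        · exact Or.inr ⟨g, rfl, rfl⟩
    show Gate.and (Lit.map _ '' {z : Lit (SNod D a) | z = pl (.Y s (oo ⊥ l ⊓ D.N (pts (a s)))
        (g : D.G ⧸ (oo ⊥ l ⊓ D.N (pts (a s)) : Subgroup D.G))) ∨
        ∃ x : D.G, (x : D.G ⧸ (oo ⊥ l ⊓ D.N (pts (a s)) : Subgroup D.G)) =
          (g : D.G ⧸ (oo ⊥ l ⊓ D.N (pts (a s)) : Subgroup D.G)) ∧
          z = pl (.E s L (x : D.G ⧸ D.N (pts (a s))))}) = _
    rw [e, im_pair]
    rfl
  gDn := by
    intro s hs l hl g
    refine (gate_mk h (x := .Dn s l (g : D.G ⧸ (oo ⊥ l : Subgroup D.G))) ⟨hs, hl⟩).trans ?_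
    show Gate.and (Lit.map _ '' {z : Lit (SNod D a) | ∃ x : D.G,
      (x : D.G ⧸ (oo ⊥ l : Subgroup D.G)) = (g : D.G ⧸ (oo ⊥ l : Subgroup D.G)) ∧
      z = mi (.J s l (x : D.G ⧸ (oo ⊥ l ⊓ D.N (pts (a s)) : Subgroup D.G)))}) = _
    rw [im_co]
    rfl
  gcv := by
    intro s hs
    refine (gate_mk h (x := .cv (a s)) ⟨s, hs, rfl⟩).trans ?_
    have e : {z : Lit (SNod D a) | ∃ s' < L, a s = a s' ∧ z = pl (.b s' s')} = {pl (.b s s)} := by
      ext z
      constructor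
      · rintro ⟨s', hs', e', rfl⟩
        have h1 := h.inj s hs s' hs' e'
        subst h1
        rfl
      · rintro rfl
        exact ⟨s, hs, rfl, rfl⟩
    show Gate.and (Lit.map _ '' {z : Lit (SNod D a) | ∃ s' < L, a s = a s' ∧ z = pl (.b s' s')}) = _
    rw [e, im_single]
    rfl
  gW := by
    intro A hA v
    refine (gate_mk h (x := .W A v) hA).trans ?_
    show Gate.and (Lit.map _ '' {z : Lit (SNod D a) | ∃ x, x ∈ A.inst v ∧ z = ⟨.cv x.1, !x.2⟩}) = _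
    rw [im_ex]
    rfl
  gW0 := by
    intro A hA v
    refine (gate_mk h (x := .W0 A v) hA).trans ?_
    show Gate.and (Lit.map _ '' {z : Lit (SNod D a) | ∃ x, x ∈ A.inst v ∧ z = ⟨.V x.1, !x.2⟩}) = _
    rw [im_ex]
    rfl

end Pool.Agent.H29.SV
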