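import Pool.Agent.H29.SV.SCan

/-!
# [H29 SV SIns] the axioms hold in the canonical structure

Compare `H29/NS/Ins.lean` (the same with classes instead of elements; helper42's proof may be copied).
`can_lit`: `can1`, `can2` and `cv (a s) ↔ b s s` (`gcv`: `Rf.andT`, `Rf.andF`); both values of `β`.
`can_W`: `u = fun i => D.act g (v i)`: `Rf.andF` for `W0 A u` (`gW0`): for `x ∈ A.inst u` refute `⟨V x.1, x.2⟩ :: [mi (W0 A u), pl (W A v), pl (Y L (N (range v)) g)]` (members `⟨V x.1, !x.2⟩`).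
* literal: `x = (D.ga g y.1, y.2)`, `y ∈ A.inst v`, `pts y.1 ⊆ range v`: `[pl (W A v), ⟨cv y.1, y.2⟩]` (`Rf.andT`, `gW`), `can_lit` for `y.1 = a s` (`H.inst`; `N_mono`).
* existential part, point `p`: `Q.ext` (`Q` the local data of stage `L`) from `N (range v)` to `M' = N o'`, `o' = range v ∪ {p0's orbit}`: the point `p0 = D.act g'⁻¹ p` depends on the extension `g'`, but its orbit does not: take `o' = insert p (range v)` (`ncard ≤ A.k + 1 ≤ k`); for `g' ∈ g (N (range v))` with `Y L (N o') g'` let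
  `p0 = D.act g'⁻¹ p` and `y = (⟨e.1, e.2.1, fun i => Fin.snoc v p0 (e.2.2 i)⟩, true) ∈ A.inst v`. `D.act g' (v i) = D.act g (v i)` (`g⁻¹ * g' ∈ N (range v)`), `D.act g' p0 = p`, so `x.1 = D.ga g' y.1`. `N o' ≤ N (pts y.1)`: `N_le` (the points of `y.1` are points of `v` or `p0 = D.act g'⁻¹ p`). `can_lit` for `M = N o'`, `g'`, and `[pl (W A v), pl (cv y.1)]` (`gW`).
`can_inst`: `Rf.hyp` for `W0 A u` (`gW0`, `gV`): `[pl (W0 A u)]`; with `can_W`: `[pl (Y L (N (range v)) g), pl (W A v)]` for all `g`; `Q.ex0`.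
-/

set_option autoImplicit false

open Set

namespace Pool.Agent.H29.SV

open Pool.Agent.H42.CS Pool.Agent.H29.NS
open Pool.Agent.H79.SL (oo nx Loc)

variable {Rel : ℕ → Type} {P : Type} {T : Set (Ax Rel)} {D : Sd P} {C : Circuit Rel P} {L k : ℕ}
  {a : ℕ → Atom Rel P} (H : SG T D C L k a)

private theorem ins_cut {f g l : List (Lit C.N)} (x : Lit C.N) (hf : Rf T C f) (hg : Rf T C g)
    (h1 : ∀ y ∈ f, y = x ∨ y ∈ l) (h2 : ∀ y ∈ g, y = x.neg ∨ y ∈ l) (hw : l.length ≤ 15) :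
    Rf T C l :=
  Rf.cut x (hf.mono (fun y hy => List.mem_cons.2 (h1 y hy)) (by rw [List.length_cons]; omega))
    (hg.mono (fun y hy => List.mem_cons.2 (h2 y hy)) (by rw [List.length_cons]; omega)) (by omega)

private theorem ins_range {n : ℕ} (v : Fin n → P) : (range v).ncard ≤ n := by
  rw [← image_univ]
  refine (ncard_image_le (toFinite _)).trans ?_
  rw [ncard_univ, Nat.card_eq_fintype_card, Fintype.card_fin]

theorem SG.can_lit {s : ℕ} (hs : s < L) {M : Subgroup D.G} (hM : M ∈ H.MM) (h : M ≤ D.N (pts (a s))) (g : D.G)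
    (β : Bool) : Rf T C [pl (H.Y L M g), ⟨H.V (D.ga g (a s)), β⟩, ⟨H.cv (a s), !β⟩] := by
  have h2 := H.can1 hs hM h g
  have h3 := H.can2 hs hM h g
  cases β with
  | true =>
    have h5 : Rf T C [mi (H.cv (a s)), pl (H.b s s)] := by
      refine Rf.andF (H.gcv s hs) (by simp) ?_ (by simp)
      intro x hx
      rw [mem_singleton_iff.1 hx]
      exact Rf.triv (pl (H.b s s)) (by simp) (by simp) (by simp)
    exact ins_cut (pl (H.b s s)) h5 h2 (by simp) (by simp [Lit.neg]) (by simp)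
  | false =>
    have h5 : Rf T C [pl (H.cv (a s)), (pl (H.b s s)).neg] :=
      Rf.andT (H.gcv s hs) (mem_singleton _)
    exact ins_cut (pl (H.b s s)) h3 h5 (by simp) (by simp [Lit.neg]) (by simp)

theorem SG.can_W {A : Ax Rel} (hA : A ∈ T) (v : Fin A.k → P) (g : D.G) :
    Rf T C [mi (H.W0 A (fun i => D.act g (v i))), pl (H.W A v), pl (H.Y L (D.N (range v)) g)] := by
  have hvk := H.vk A hA
  have ho : (range v).ncard ≤ k := (ins_range v).trans (by omega)
  have hMM : D.N (range v) ∈ H.MM := H.fam.mN _ ho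
  refine Rf.andF (H.gW0 A hA (fun i => D.act g (v i))) (by simp) ?_ (by simp)
  rintro _ ⟨x, hx, rfl⟩
  have hnn : (⟨H.V x.1, !x.2⟩ : Lit C.N).neg = ⟨H.V x.1, x.2⟩ := neg_neg' ⟨H.V x.1, x.2⟩
  rw [hnn]
  rcases hx with ⟨l, hl, rfl⟩ | ⟨e, he, p, rfl⟩
  · obtain ⟨y, hy⟩ : ∃ y : Atom Rel P × Bool,
        y = (⟨l.1.1, l.1.2.1, fun i => v (l.1.2.2 i)⟩, l.2) := ⟨_, rfl⟩
    have hyi : y ∈ A.inst v := Or.inl ⟨l, hl, hy⟩
    obtain ⟨s, hs, hys⟩ := H.inst A hA v y hyi
    have hK : D.N (range v) ≤ D.N (pts (a s)) := by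
      refine N_mono D ?_
      rw [← hys, hy]
      rintro _ ⟨i, rfl⟩
      exact mem_range_self _
    have h1 := H.can_lit hs hMM hK g y.2
    have h2 : Rf T C [pl (H.W A v), (⟨H.cv y.1, !y.2⟩ : Lit C.N).neg] :=
      Rf.andT (H.gW A hA v) ⟨y, hyi, rfl⟩
    rw [← hys] at h1
    have h3 : D.ga g y.1 = ⟨l.1.1, l.1.2.1, fun i => D.act g (v (l.1.2.2 i))⟩ := by
      rw [hy]
      rfl
    rw [h3] at h1
    have h4 : y.2 = l.2 := by rw [hy]
    rw [h4] at h1 h2
    refine ins_cut (⟨H.cv y.1, !l.2⟩ : Lit C.N) h1 h2 ?_ ?_ (by simp)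
    · intro z hz
      simp only [List.mem_cons, List.not_mem_nil, or_false] at hz ⊢
      tauto
    · intro z hz
      simp only [List.mem_cons, List.not_mem_nil, or_false] at hz ⊢
      tauto
  · obtain ⟨o', ho'⟩ : ∃ o' : Set P, o' = insert p (range v) := ⟨_, rfl⟩
    have hoc : o'.ncard ≤ k := by
      rw [ho']
      exact (ncard_insert_le _ _).trans ((Nat.add_le_add_right (ins_range v) 1).trans hvk)
    have hMo : D.N o' ∈ H.MM := H.fam.mN _ hoc
    have hKo : D.N o' ≤ D.N (range v) := by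
      refine N_mono D ?_
      rw [ho']
      exact subset_insert _ _
    obtain ⟨i1, i2, i3⟩ := H.inv_all (le_refl L)
    have key := (H.loc le_rfl i1 i2 i3).ext hMo hMM hKo (g := g) (Δ := [pl (H.V (⟨e.1, e.2.1, fun i =>
        (Fin.snoc (fun i => D.act g (v i)) p : Fin (A.k + 1) → P) (e.2.2 i)⟩ : Atom Rel P)),
        pl (H.W A v), mi (H.W0 A (fun i => D.act g (v i)))]) (by simp) ?_
    · refine key.mono ?_ (by simp)
      intro z hz
      have hz' : z = pl (H.Y L (D.N (range v)) g) ∨ z ∈ [pl (H.V (⟨e.1, e.2.1, fun i =>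
        (Fin.snoc (fun i => D.act g (v i)) p : Fin (A.k + 1) → P) (e.2.2 i)⟩ : Atom Rel P)),
        pl (H.W A v), mi (H.W0 A (fun i => D.act g (v i)))] := List.mem_cons.1 hz
      simp only [List.mem_cons, List.not_mem_nil, or_false] at hz' ⊢
      tauto
    · intro g' hg'
      obtain ⟨p0, hp0⟩ : ∃ p0, p0 = D.act g'⁻¹ p := ⟨_, rfl⟩
      obtain ⟨y, hy⟩ : ∃ y : Atom Rel P × Bool, y = (⟨e.1, e.2.1, fun i =>
          (Fin.snoc v p0 : Fin (A.k + 1) → P) (e.2.2 i)⟩, true) := ⟨_, rfl⟩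
      have hyi : y ∈ A.inst v := Or.inr ⟨e, he, p0, hy⟩
      obtain ⟨s, hs, hys⟩ := H.inst A hA v y hyi
      have hact : ∀ i, D.act g' (v i) = D.act g (v i) := by
        intro i
        have h1 := hg' (v i) (mem_range_self i) 1
        rw [map_one, Equiv.Perm.one_apply] at h1
        have h2 : D.act g' = D.act g * D.act (g⁻¹ * g') := by
          rw [← map_mul, mul_inv_cancel_left]
        rw [h2, Equiv.Perm.mul_apply, h1]
      have hp1 : D.act g' p0 = p := by
        rw [hp0, ← Equiv.Perm.mul_apply, ← map_mul, mul_inv_cancel, map_one, Equiv.Perm.one_apply]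
      have hsn : ∀ i : Fin (A.k + 1), D.act g' ((Fin.snoc v p0 : Fin (A.k + 1) → P) i) =
          (Fin.snoc (fun i => D.act g (v i)) p : Fin (A.k + 1) → P) i := by
        intro i
        refine Fin.lastCases ?_ (fun j => ?_) i
        · rw [Fin.snoc_last, Fin.snoc_last, hp1]
        · rw [Fin.snoc_castSucc, Fin.snoc_castSucc, hact]
      have hga : D.ga g' (a s) = ⟨e.1, e.2.1, fun i =>
          (Fin.snoc (fun i => D.act g (v i)) p : Fin (A.k + 1) → P) (e.2.2 i)⟩ := by
        rw [← hys, hy]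
        have h1 : (fun i => D.act g' ((Fin.snoc v p0 : Fin (A.k + 1) → P) (e.2.2 i))) =
            fun i => (Fin.snoc (fun i => D.act g (v i)) p : Fin (A.k + 1) → P) (e.2.2 i) :=
          funext fun i => hsn (e.2.2 i)
        show (⟨e.1, e.2.1, fun i => D.act g' ((Fin.snoc v p0 : Fin (A.k + 1) → P) (e.2.2 i))⟩ :
          Atom Rel P) = _
        rw [h1]
      have hK : D.N o' ≤ D.N (pts (a s)) := by
        refine N_le D ?_
        rw [← hys, hy]
        rintro _ ⟨i, rfl⟩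
        show ∃ p1 ∈ o', ∃ g1, (Fin.snoc v p0 : Fin (A.k + 1) → P) (e.2.2 i) = D.act g1 p1
        refine Fin.lastCases (motive := fun j => ∃ p1 ∈ o', ∃ g1,
          (Fin.snoc v p0 : Fin (A.k + 1) → P) j = D.act g1 p1) ?_ (fun j => ?_) (e.2.2 i)
        · rw [Fin.snoc_last]
          exact ⟨p, by rw [ho']; exact mem_insert _ _, g'⁻¹, hp0⟩
        · rw [Fin.snoc_castSucc]
          refine ⟨v j, by rw [ho']; exact mem_insert_of_mem _ (mem_range_self j), 1, ?_⟩
          rw [map_one, Equiv.Perm.one_apply]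
      have h1 := H.can_lit hs hMo hK g' true
      have h2 : Rf T C [pl (H.W A v), (⟨H.cv y.1, !y.2⟩ : Lit C.N).neg] :=
        Rf.andT (H.gW A hA v) ⟨y, hyi, rfl⟩
      have h4 : y.2 = true := by rw [hy]
      rw [h4, hys] at h2
      rw [hga] at h1
      show Rf T C (pl (H.Y L (D.N o') g') :: [pl (H.V (⟨e.1, e.2.1, fun i =>
        (Fin.snoc (fun i => D.act g (v i)) p : Fin (A.k + 1) → P) (e.2.2 i)⟩ : Atom Rel P)),
        pl (H.W A v), mi (H.W0 A (fun i => D.act g (v i)))])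
      refine ins_cut (⟨H.cv (a s), !true⟩ : Lit C.N) h1 h2 ?_ ?_ (by simp)
      · intro z hz
        simp only [List.mem_cons, List.not_mem_nil, or_false] at hz ⊢
        tauto
      · intro z hz
        simp only [List.mem_cons, List.not_mem_nil, or_false] at hz ⊢
        tauto

theorem SG.can_inst {A : Ax Rel} (hA : A ∈ T) (v : Fin A.k → P) : Rf T C [pl (H.W A v)] := by
  have hvk := H.vk A hA
  have ho : (range v).ncard ≤ k := (ins_range v).trans (by omega)
  obtain ⟨i1, i2, i3⟩ := H.inv_all (le_refl L)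
  refine (H.loc le_rfl i1 i2 i3).ex0 (M := D.N (range v)) (H.fam.mN _ ho) (by simp) fun g => ?_
  show Rf T C (pl (H.Y L (D.N (range v)) g) :: [pl (H.W A v)])
  have h1 : Rf T C [pl (H.W0 A (fun i => D.act g (v i)))] := by
    refine Rf.hyp hA (v := fun i => D.act g (v i)) (H.gW0 A hA _) fun x hx => ?_
    obtain ⟨s, hs, hxs⟩ := H.inst A hA _ x hx
    refine ⟨H.V x.1, ?_, x, hx, rfl⟩
    rw [hxs]
    exact H.gV s hs
  refine ins_cut (pl (H.W0 A (fun i => D.act g (v i)))) h1 (H.can_W hA v g) (by simp) ?_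
    (by simp)
  intro z hz
  simp only [List.mem_cons, List.not_mem_nil, or_false] at hz ⊢
  rcases hz with rfl | rfl | rfl
  · exact Or.inl rfl
  · exact Or.inr (Or.inr rfl)
  · exact Or.inr (Or.inl rfl)

end Pool.Agent.H29.SV
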