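import Pool.Agent.H29.NS.Cos
import Pool.Agent.H29.SV.SAct
import Pool.Agent.H29.SV.SEnu
import Pool.Agent.H29.SV.SGadC
import Pool.Agent.H29.SV.SIns
import Pool.Agent.H81.SV.Bas

/-!
# THEOREM SOLV (MP_576eff_lc): symmetric refutations for solvable groups

For finitely many axioms there is a number `c` such that for all solvable groups `Γ` of permutations of `n ≥ 2` points every refutation
`R` over these points has a `Γ`-symmetric one of size at most `R.size * (n * A * B) ^ c`, where `A` bounds the orders of the transitive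
constituents of `Γ` (the images of `Γ` in the groups of permutations of the orbits) and `B` bounds the orders of the quotients
`Γ / O_p'(Γ)` (`oo ⊥ p` is the largest normal subgroup of `Γ` whose order is prime to `p`), for all primes `p`.
-/

set_option autoImplicit false

open Set

namespace Pool.Agent.H29.SV

open Pool.Agent.H42.CS Pool.Agent.H29.NS
open Pool.Agent.H79.SL (oo nx Loc)

variable {Rel : ℕ → Type}

private theorem triv_symm {n : ℕ} {T : Set (Ax Rel)} (he : IsEmpty (Atom Rel (Fin n)))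
    (Γ : Subgroup (Equiv.Perm (Fin n))) (R : Refutation T (Fin n)) : R.Symm Γ := by
  refine ⟨1, fun σ => ⟨fun x => ?_, fun Λ hΛ => ?_⟩⟩
  · show R.C.gate x = (R.C.gate x).map (σ : Equiv.Perm (Fin n)) id
    have hid : (Lit.map id : Lit R.C.N → Lit R.C.N) = id := rfl
    cases hg : R.C.gate x with
    | var v => exact he.elim v
    | and S =>
      show Gate.and S = Gate.and (Lit.map id '' S)
      rw [hid, image_id]
    | sym B S =>
      show Gate.sym B S = Gate.sym B (Lit.map id '' S)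
      rw [hid, image_id]
  · have h1 : Lit.map ((1 : Γ →* Equiv.Perm R.C.N) σ) '' Λ = Λ := image_id Λ
    rw [h1]
    exact hΛ

/-- THEOREM SOLV -/
theorem solv_main {T : Set (Ax Rel)} (hT : T.Finite) (hl : ∀ A ∈ T, A.lits.Finite ∧ A.ex.Finite) :
    ∃ c : ℕ, ∀ (n : ℕ) (Γ : Subgroup (Equiv.Perm (Fin n))) (A B : ℕ), 2 ≤ n → Group.IsSolvable Γ →
      (∀ x : Fin n, (MulAction.stabilizer Γ x).normalCore.index ≤ A) →
      (∀ p : ℕ, p.Prime → (oo (⊥ : Subgroup Γ) p).index ≤ B) →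
      ∀ R : Refutation T (Fin n), ∃ R' : Refutation T (Fin n), R'.Symm Γ ∧
        R'.size ≤ R.size * (n * A * B) ^ c := by
  obtain ⟨k, c, hdat⟩ := atoms_ex hT hl
  refine ⟨18 * (6 + 4 * (c + 3 * k + 13)), ?_⟩
  intro n Γ A B hn hΓ hA hB R
  have hA1 : 1 ≤ A := (Nat.one_le_iff_ne_zero.2 Subgroup.index_ne_zero_of_finite).trans (hA ⟨0, by omega⟩)
  have hB1 : 1 ≤ B := (Nat.one_le_iff_ne_zero.2 Subgroup.index_ne_zero_of_finite).trans (hB 2 Nat.prime_two)
  obtain ⟨X, hX⟩ : ∃ X, X = n * A * B := ⟨_, rfl⟩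
  rw [← hX]
  have hx2 : 2 ≤ X := by
    rw [hX]
    nlinarith [Nat.mul_le_mul hA1 hB1, mul_assoc n A B]
  rcases isEmpty_or_nonempty (Atom Rel (Fin n)) with he | hne
  · refine ⟨R, triv_symm he Γ R, ?_⟩
    exact Nat.le_mul_of_pos_right _ (Nat.pow_pos (by omega))
  obtain ⟨D, e, he, hm, hDA, hDB⟩ := Pool.Agent.H81.SV.sd_ex hn Γ hΓ hA hB
  obtain ⟨L, a, hL, hW, hcd, hda⟩ := hdat n D hn hne
  obtain ⟨MM, RR, hF, hMi, hRi, hMc, hRc⟩ := Pool.Agent.H81.SV.fam_ex D L k a hcd hm hA1 hDA hDB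
  have hd := hda MM RR hF
  let H := gadC hd
  obtain ⟨R', h1, h2⟩ := asm (T := T) (Cg := cir hd) (cv := H.cv)
    (fun B hB v => ⟨H.W B v, H.gW B hB v, H.can_inst hB v⟩) Γ ((ac hd).comp e.toMonoidHom)
    (fun σ x => by
      have h3 := gate_ac hd (e σ) x
      rw [he σ] at h3
      exact h3)
    (fun σ x => ac_cv hd (e σ) x) R
  refine ⟨R', h1, h2.trans (Nat.mul_le_mul_left _ ?_)⟩
  have hy : ∀ j, 1 ≤ X ^ j := fun j => Nat.one_le_pow _ _ (by omega)
  have hmon : ∀ i j, i ≤ j → X ^ i ≤ X ^ j := fun i j hij => Nat.pow_le_pow_right (by omega) hij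
  have hnx : n ≤ X := by
    rw [hX]
    nlinarith [Nat.mul_le_mul hA1 hB1, mul_assoc n A B]
  have hAx : A ≤ X := by
    rw [hX]
    calc A = 1 * A * 1 := by ring
      _ ≤ n * A * B := Nat.mul_le_mul (Nat.mul_le_mul (by omega) le_rfl) hB1
  have hBx : B ≤ X := by
    rw [hX]
    calc B = 1 * 1 * B := by ring
      _ ≤ n * A * B := Nat.mul_le_mul (Nat.mul_le_mul (by omega) hA1) le_rfl
  have hn1 : n + 1 ≤ X ^ 2 := by nlinarith
  have hI : B * B * A ^ k ≤ X ^ (k + 2) := by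
    calc B * B * A ^ k ≤ X * X * X ^ k :=
          Nat.mul_le_mul (Nat.mul_le_mul hBx hBx) (Nat.pow_le_pow_left hAx k)
      _ = X ^ (k + 2) := by ring
  have hnk : ∀ j, (n + 1) ^ j ≤ X ^ (2 * j) := fun j => by
    rw [pow_mul]
    exact Nat.pow_le_pow_left hn1 j
  have h8 : 8 ≤ X ^ 3 := by
    calc 8 = 2 ^ 3 := by norm_num
      _ ≤ _ := Nat.pow_le_pow_left hx2 3
  have hcard : Nat.card (cir hd).N ≤ 15 * (X ^ (c + 3 * k + 13)) ^ 4 := by
    refine (good_card hd (X ^ (c + 3 * k + 13)) ?_ ?_ ?_ ?_ ?_ ?_ ?_ ?_).2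
    · exact hL.trans ((Nat.pow_le_pow_left hnx c).trans (hmon _ _ (by omega)))
    · exact hm.trans (hnx.trans (by simpa using hmon 1 (c + 3 * k + 13) (by omega)))
    · refine hMc.trans ?_
      calc 2 * ((n + 1) ^ (k + 2) * (B * B * A ^ k)) ≤ X ^ 3 * (X ^ (2 * (k + 2)) * X ^ (k + 2)) :=
            Nat.mul_le_mul (by omega) (Nat.mul_le_mul (hnk _) hI)
        _ = X ^ (3 + (2 * (k + 2) + (k + 2))) := by rw [← pow_add, ← pow_add]
        _ ≤ _ := hmon _ _ (by omega)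
    · refine hRc.trans ?_
      calc 6 * ((n + 1) ^ (k + 4) * (B * B * A ^ k)) ≤ X ^ 3 * (X ^ (2 * (k + 4)) * X ^ (k + 2)) :=
            Nat.mul_le_mul (by omega) (Nat.mul_le_mul (hnk _) hI)
        _ = X ^ (3 + (2 * (k + 4) + (k + 2))) := by rw [← pow_add, ← pow_add]
        _ ≤ _ := hmon _ _ (by omega)
    · exact fun l hl' => (hDB l hl').trans (hBx.trans (by simpa using hmon 1 (c + 3 * k + 13) (by omega)))
    · exact fun M hM => (hMi M hM).trans (hI.trans (hmon _ _ (by omega)))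
    · exact fun Y hY => (hRi Y hY).trans (hI.trans (hmon _ _ (by omega)))
    · exact hW.trans ((Nat.pow_le_pow_left hnx c).trans (hmon _ _ (by omega)))
  have h4 : 2 * Nat.card (cir hd).N + 4 ≤ X ^ (6 + 4 * (c + 3 * k + 13)) := by
    have h5 : 36 ≤ X ^ 6 := by
      calc 36 ≤ 2 ^ 6 := by norm_num
        _ ≤ _ := Nat.pow_le_pow_left hx2 6
    have h6 : (X ^ (c + 3 * k + 13)) ^ 4 = X ^ (4 * (c + 3 * k + 13)) := by
      rw [← pow_mul, Nat.mul_comm (c + 3 * k + 13) 4]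
    rw [h6] at hcard
    have h7 := hy (4 * (c + 3 * k + 13))
    rw [pow_add]
    nlinarith
  calc (2 * Nat.card (cir hd).N + 4) ^ 18 ≤ (X ^ (6 + 4 * (c + 3 * k + 13))) ^ 18 :=
        Nat.pow_le_pow_left h4 18
    _ = _ := by rw [← pow_mul, Nat.mul_comm (6 + 4 * (c + 3 * k + 13)) 18]

/-- THEOREM SOLV for a solvable subgroup `H` of a group `Γ` -/
theorem solv_index {T : Set (Ax Rel)} (hT : T.Finite) (hl : ∀ A ∈ T, A.lits.Finite ∧ A.ex.Finite) :
    ∃ c : ℕ, ∀ (n : ℕ) (Γ H : Subgroup (Equiv.Perm (Fin n))) (A B : ℕ), 2 ≤ n → H ≤ Γ → Group.IsSolvable H →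
      (∀ x : Fin n, (MulAction.stabilizer H x).normalCore.index ≤ A) →
      (∀ p : ℕ, p.Prime → (oo (⊥ : Subgroup H) p).index ≤ B) →
      ∀ R : Refutation T (Fin n), ∃ R' : Refutation T (Fin n), R'.Symm Γ ∧
        R'.size ≤ H.relIndex Γ * (R.size * (n * A * B) ^ c) := by
  obtain ⟨c, hc⟩ := solv_main hT hl
  refine ⟨c, ?_⟩
  intro n Γ H A B hn hH hs hA hB R
  obtain ⟨R1, h1, h2⟩ := hc n H A B hn hs hA hB R
  obtain ⟨R2, h3, h4⟩ := sym_index hH R1 h1
  exact ⟨R2, h3, h4.trans (Nat.mul_le_mul_left _ h2)⟩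

end Pool.Agent.H29.SV
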