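import Pool.Agent.H29.SV.SClE
import Pool.Agent.H79.SL.Out

/-!
# [H29 SV SInv] the three invariants of all stages

All about one stage is in `Pool/Agent/H79/SL/Out.lean` for `Q = H.loc hs h1 h2 h3 : Loc T C D.G` (`Q.be = H.be s`, `Q.Y = H.Y s`, …, by `rfl`): `Q.be_bb`, `Q.bb_el`, `Q.Y_bb`, `Q.Y_mk`, `Q.Y_res` (monotone), `Q.clY` (closed), `Q.ext` (EXT with a context), `Q.ex0` (existence with a context).
`J_be`: `[pl (J s l z), mi (be (s+1) l z)]`: `J s l z → Y s (oo ⊥ l ⊓ N s) z` (`gJ`, `Rf.andT`) `→ ¬ bb s l (oo (oo ⊥ l ⊓ N s) l) z` (`gY`), `oo (oo ⊥ l ⊓ N s) l = oo ⊥ l` (`oo_inf`, `N_normal`), and `bb s l (oo ⊥ l) z` is true if `be s l z` is false (`Rf.andF`, `gbb`, `ibe`: all `be s l x`, `x ∈ z (oo ⊥ l)`, are the node `be s l z`): so `be s l z`;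
`Dn s l z → ¬ J s l z` (`gDn`, `Rf.andT`); `Rf.andF` for `be (s+1) l z` (`gbe`).
`be_J` (elimination): `Rf T C (pl (J s l x) :: Δ)` for all `x ∈ g (oo ⊥ l)` gives `Rf T C (pl (be (s+1) l g) :: Δ)`: `be (s+1) l g → ¬ Dn s l g` (`gbe`), `Rf.andF` for `mi (Dn s l g) :: Δ` (`gDn`), `Rf.cut`.
`inv0`: `be 0 l g` is true (`gbe0`, `Rf.andF`): closure and `Rf.mono`; `bb 0 t X x → ¬ be 0 t x` (`gbb`, `rsup`, member `x`).
`cl_succ`: three times `be_J`: `x1 ∈ x O, y1 ∈ y O, z1 ∈ z O` (`O = oo ⊥ l`, normal) with `J s l x1, J s l y1, J s l z1`, context `Δ` = these and `mi (be (s+1) l (x * y⁻¹ * z))`. `w = x1 * y1⁻¹ * z1`; `J s l w`: `Q.clY` for `O ⊓ N s`, `clE` (with `Q.clY` for `N s`), `Rf.andF` (`gJ`); `J_be`; `be (s+1) l w = be (s+1) l (x * y⁻¹ * z)` (`ibe`: `w` and `x y⁻¹ z`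
are equal modulo the normal subgroup `O`).
`cp_succ`: `be_J`: `z ∈ x (oo ⊥ l)`, `J s l z`, so `Y s (oo ⊥ l ⊓ N s) z`, `E s L z`. `Q.ext` from `oo ⊥ l ⊓ N s` to `oo ⊥ l ⊓ oo ⊥ t ⊓ N s`: `z' ∈ z (oo ⊥ l ⊓ N s)` with `Y s (oo ⊥ l ⊓ oo ⊥ t ⊓ N s) z'`, so (`Q.Y_res`) `Y s (oo ⊥ t ⊓ N s) z'`, and `E s L z' = E s L z` (`iE`): `J s t z'` (`Rf.andF`, `gJ`), `J_be`: `be (s+1) t z'`, and
`bb (s+1) t (oo ⊥ l ⊔ oo ⊥ t) x → ¬ be (s+1) t z'` (`gbb`; `x⁻¹ * z' ∈ oo ⊥ l ⊔ oo ⊥ t`).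
`ne_succ`: context `Δ = [pl (bb (s+1) l ⊤ 1)]`. By `up_E` and `Q.ex0` it is enough to refute `pl (E s L g) :: Δ` for all `g`; `E s L g → Y s (N s) g` (`E_Y`), `Q.ext` from `N s` to `oo ⊥ l ⊓ N s`: `z ∈ g (N s)` with `Y s (oo ⊥ l ⊓ N s) z`, `E s L z = E s L g`: `J s l z`, `J_be`, `bb (s+1) l ⊤ 1 → ¬ be (s+1) l z` (`gbb`, `⊤ ∈ RR`: `rM`, `mtop`).
`inv_all`: induction on `s`.
-/

set_option autoImplicit false

open Set

namespace Pool.Agent.H29.SV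

open Pool.Agent.H42.CS Pool.Agent.H29.NS
open Pool.Agent.H79.SL (oo nx Loc)

variable {Rel : ℕ → Type} {P : Type} {T : Set (Ax Rel)} {D : Sd P} {C : Circuit Rel P} {L k : ℕ}
  {a : ℕ → Atom Rel P} (H : SG T D C L k a)

private theorem iv_res {l f g : List (Lit C.N)} (n : C.N) (h : Rf T C f) (hf : ∀ y ∈ f, y ∈ pl n :: l)
    (h' : Rf T C g) (hg : ∀ y ∈ g, y ∈ mi n :: l) (hw : l.length ≤ 15) : Rf T C l :=
  Rf.cut (pl n) (h.mono hf (by rw [List.length_cons]; omega))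
    (h'.mono hg (by rw [List.length_cons]; omega)) (by omega)

private theorem SG.iv_M (H : SG T D C L k a) {s : ℕ} (hs : s < L) : D.N (pts (a s)) ∈ H.MM :=
  H.fam.mN _ (H.cd s hs)

private theorem oo_bot_normal (D : Sd P) (l : ℕ) : (oo ⊥ l : Subgroup D.G).Normal :=
  Pool.Agent.H79.SL.oo_normal (M := ⊥) inferInstance l

private theorem SG.J_Y (H : SG T D C L k a) {s : ℕ} (hs : s < L) {l : ℕ} (hl : l ∈ D.LL) (z : D.G) :
    Rf T C [pl (H.J s l z), mi (H.Y s (oo ⊥ l ⊓ D.N (pts (a s))) z)] :=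
  Rf.andT (x := pl (H.Y s (oo ⊥ l ⊓ D.N (pts (a s))) z)) (H.gJ s hs l hl z) (Or.inl rfl)

private theorem SG.J_E (H : SG T D C L k a) {s : ℕ} (hs : s < L) {l : ℕ} (hl : l ∈ D.LL) (z : D.G) :
    Rf T C [pl (H.J s l z), mi (H.E s L z)] :=
  Rf.andT (x := pl (H.E s L z)) (H.gJ s hs l hl z) (Or.inr rfl)

private theorem SG.mk_J (H : SG T D C L k a) {s : ℕ} (hs : s < L) {l : ℕ} (hl : l ∈ D.LL) (z : D.G)
    (Δ : List (Lit C.N)) (hΔ : Δ.length ≤ 13) (h1 : Rf T C (mi (H.Y s (oo ⊥ l ⊓ D.N (pts (a s))) z) :: Δ))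
    (h2 : Rf T C (mi (H.E s L z) :: Δ)) : Rf T C (mi (H.J s l z) :: Δ) := by
  refine Rf.andF (H.gJ s hs l hl z) List.mem_cons_self (fun x hx => ?_) (by simp only [List.length_cons]; omega)
  rcases hx with rfl | hx
  · refine h1.mono ?_ (by simp only [List.length_cons]; omega)
    intro y hy
    simp only [List.mem_cons] at hy ⊢
    rcases hy with rfl | hy
    · exact Or.inl rfl
    · exact Or.inr (Or.inr hy)
  · rw [mem_singleton_iff.1 hx]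
    refine h2.mono ?_ (by simp only [List.length_cons]; omega)
    intro y hy
    simp only [List.mem_cons] at hy ⊢
    rcases hy with rfl | hy
    · exact Or.inl rfl
    · exact Or.inr (Or.inr hy)

theorem SG.J_be {s : ℕ} (hs : s < L) {l : ℕ} (hl : l ∈ D.LL) (z : D.G) :
    Rf T C [pl (H.J s l z), mi (H.be (s + 1) l z)] := by
  have hN : (D.N (pts (a s))).Normal := H.fam.nor _ (H.iv_M hs)
  have f1 := H.J_Y hs hl z
  have f2 : Rf T C [pl (H.Y s (oo ⊥ l ⊓ D.N (pts (a s))) z), pl (H.bb s l (oo ⊥ l) z)] := by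
    have h := Rf.andT (T := T) (x := mi (H.bb s l (oo (oo ⊥ l ⊓ D.N (pts (a s))) l) z))
      (H.gY s hs.le _ (H.fam.mJ s hs l hl) z) ⟨l, hl, rfl⟩
    rw [Pool.Agent.H79.SL.oo_inf hN l] at h
    exact h
  have f3 : Rf T C [mi (H.bb s l (oo ⊥ l) z), mi (H.be s l z)] := by
    refine Rf.andF (H.gbb s hs.le l hl _ (H.fam.rbot l hl) z) (by simp) (fun x hx => ?_) (by simp)
    obtain ⟨y, hy, rfl⟩ := hx
    rw [← H.ibe s l z y hy]
    exact Rf.triv (pl (H.be s l z)) List.mem_cons_self (by simp [Lit.neg]) (by simp)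
  have f12 : Rf T C [pl (H.J s l z), pl (H.bb s l (oo ⊥ l) z)] :=
    iv_res (H.Y s (oo ⊥ l ⊓ D.N (pts (a s))) z) f2 (by simp) f1 (by simp) (by simp)
  have f4 : Rf T C [pl (H.J s l z), mi (H.be s l z)] :=
    iv_res (H.bb s l (oo ⊥ l) z) f12 (by simp) f3 (by simp) (by simp)
  have f5 : Rf T C [pl (H.Dn s l z), pl (H.J s l z)] :=
    Rf.andT (x := mi (H.J s l z)) (H.gDn s hs l hl z) ⟨z, by rw [inv_mul_cancel]; exact one_mem _, rfl⟩
  refine Rf.andF (H.gbe s hs l hl z) (by simp) (fun x hx => ?_) (by simp)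
  rcases hx with rfl | hx
  · exact f4.mono (by simp [Lit.neg]) (by simp)
  · rw [mem_singleton_iff.1 hx]
    exact f5.mono (by simp [Lit.neg]) (by simp)

theorem SG.be_J {s : ℕ} (hs : s < L) {l : ℕ} (hl : l ∈ D.LL) (g : D.G) (Δ : List (Lit C.N)) (hΔ : Δ.length ≤ 12)
    (h : ∀ x, g⁻¹ * x ∈ (oo ⊥ l : Subgroup D.G) → Rf T C (pl (H.J s l x) :: Δ)) :
    Rf T C (pl (H.be (s + 1) l g) :: Δ) := by
  have e1 : Rf T C [pl (H.be (s + 1) l g), pl (H.Dn s l g)] :=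
    Rf.andT (x := mi (H.Dn s l g)) (H.gbe s hs l hl g) (Or.inr rfl)
  have e2 : Rf T C (mi (H.Dn s l g) :: Δ) := by
    refine Rf.andF (H.gDn s hs l hl g) List.mem_cons_self (fun x hx => ?_) (by simp only [List.length_cons]; omega)
    obtain ⟨y, hy, rfl⟩ := hx
    refine (h y hy).mono ?_ (by simp only [List.length_cons]; omega)
    intro w hw
    simp only [List.mem_cons] at hw ⊢
    rcases hw with rfl | hw
    · exact Or.inl rfl
    · exact Or.inr (Or.inr hw)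
  refine iv_res (H.Dn s l g) e1 (by simp) e2 ?_ (by simp only [List.length_cons]; omega)
  intro w hw
  simp only [List.mem_cons] at hw ⊢
  rcases hw with rfl | hw
  · exact Or.inl rfl
  · exact Or.inr (Or.inr hw)

/-- `bb → ¬ be` -/
private theorem SG.iv_bb (H : SG T D C L k a) {s : ℕ} (hs : s ≤ L) {l : ℕ} (hl : l ∈ D.LL) {X : Subgroup D.G}
    (hX : X ∈ H.RR) {g x : D.G} (hx : g⁻¹ * x ∈ X) : Rf T C [pl (H.bb s l X g), pl (H.be s l x)] :=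
  Rf.andT (x := mi (H.be s l x)) (H.gbb s hs l hl X hX g) ⟨x, hx, rfl⟩

private theorem SG.iv_bb0 (H : SG T D C L k a) {l : ℕ} (hl : l ∈ D.LL) {X : Subgroup D.G}
    (hX : X ∈ H.RR) (g : D.G) : Rf T C [pl (H.bb 0 l X g)] := by
  have h1 := H.iv_bb (Nat.zero_le L) hl hX (g := g) (x := g) (by rw [inv_mul_cancel]; exact one_mem _)
  have h2 : Rf T C [mi (H.be 0 l g)] :=
    Rf.andF (H.gbe0 l hl g) (by simp) (fun x hx => absurd hx (notMem_empty _)) (by simp)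
  exact iv_res (H.be 0 l g) h1 (by simp) h2 (by simp) (by simp)

theorem SG.inv0 : H.Cl 0 ∧ H.Cp 0 ∧ H.Ne 0 := by
  refine ⟨fun l hl x y z => ?_, fun l hl t ht x => ?_, fun l hl => ?_⟩
  · exact Rf.andF (H.gbe0 l hl (x * y⁻¹ * z)) (by simp) (fun x hx => absurd hx (notMem_empty _)) (by simp)
  · exact (H.iv_bb0 ht (H.fam.rsup l hl t ht) x).mono (by simp) (by simp)
  · exact H.iv_bb0 hl (H.fam.rM _ H.fam.mtop) 1

private theorem SG.J_cl (H : SG T D C L k a) {s : ℕ} (hs : s < L) (h1 : H.Cl s) (h2 : H.Cp s) (h3 : H.Ne s)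
    {l : ℕ} (hl : l ∈ D.LL) (x y z : D.G) :
    Rf T C [pl (H.J s l x), pl (H.J s l y), pl (H.J s l z), mi (H.J s l (x * y⁻¹ * z))] := by
  have hM := H.fam.mJ s hs l hl
  have a1 : Rf T C [pl (H.Y s (oo ⊥ l ⊓ D.N (pts (a s))) x), pl (H.Y s (oo ⊥ l ⊓ D.N (pts (a s))) y),
      pl (H.Y s (oo ⊥ l ⊓ D.N (pts (a s))) z), mi (H.Y s (oo ⊥ l ⊓ D.N (pts (a s))) (x * y⁻¹ * z))] :=
    (H.loc hs.le h1 h2 h3).clY hM x y z
  have a2 : Rf T C [pl (H.E s L x), pl (H.E s L y), pl (H.E s L z), mi (H.E s L (x * y⁻¹ * z))] :=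
    H.clE hs (fun x y z => (H.loc hs.le h1 h2 h3).clY (H.iv_M hs) x y z) x y z
  have b1 : Rf T C [mi (H.Y s (oo ⊥ l ⊓ D.N (pts (a s))) (x * y⁻¹ * z)), pl (H.J s l x), pl (H.J s l y),
      pl (H.J s l z)] := by
    have c1 : Rf T C [mi (H.Y s (oo ⊥ l ⊓ D.N (pts (a s))) (x * y⁻¹ * z)), pl (H.J s l x),
        pl (H.Y s (oo ⊥ l ⊓ D.N (pts (a s))) y), pl (H.Y s (oo ⊥ l ⊓ D.N (pts (a s))) z)] :=
      iv_res (H.Y s (oo ⊥ l ⊓ D.N (pts (a s))) x) a1 (by simp) (H.J_Y hs hl x) (by simp) (by simp)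
    have c2 : Rf T C [mi (H.Y s (oo ⊥ l ⊓ D.N (pts (a s))) (x * y⁻¹ * z)), pl (H.J s l x),
        pl (H.J s l y), pl (H.Y s (oo ⊥ l ⊓ D.N (pts (a s))) z)] :=
      iv_res (H.Y s (oo ⊥ l ⊓ D.N (pts (a s))) y) c1 (by simp) (H.J_Y hs hl y) (by simp) (by simp)
    exact iv_res (H.Y s (oo ⊥ l ⊓ D.N (pts (a s))) z) c2 (by simp) (H.J_Y hs hl z) (by simp) (by simp)
  have b2 : Rf T C [mi (H.E s L (x * y⁻¹ * z)), pl (H.J s l x), pl (H.J s l y), pl (H.J s l z)] := by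
    have c1 : Rf T C [mi (H.E s L (x * y⁻¹ * z)), pl (H.J s l x), pl (H.E s L y), pl (H.E s L z)] :=
      iv_res (H.E s L x) a2 (by simp) (H.J_E hs hl x) (by simp) (by simp)
    have c2 : Rf T C [mi (H.E s L (x * y⁻¹ * z)), pl (H.J s l x), pl (H.J s l y), pl (H.E s L z)] :=
      iv_res (H.E s L y) c1 (by simp) (H.J_E hs hl y) (by simp) (by simp)
    exact iv_res (H.E s L z) c2 (by simp) (H.J_E hs hl z) (by simp) (by simp)
  exact (H.mk_J hs hl _ _ (by simp) b1 b2).mono (by simp) (by simp)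

theorem SG.cl_succ {s : ℕ} (hs : s < L) (h1 : H.Cl s) (h2 : H.Cp s) (h3 : H.Ne s) : H.Cl (s + 1) := by
  intro l hl x y z
  have hO := oo_bot_normal D l
  refine H.be_J hs hl x _ (by simp) fun x1 hx => ?_
  have q1 : Rf T C (pl (H.be (s + 1) l y) :: [pl (H.J s l x1), pl (H.be (s + 1) l z),
      mi (H.be (s + 1) l (x * y⁻¹ * z))]) := by
    refine H.be_J hs hl y _ (by simp) fun y1 hy => ?_
    have q2 : Rf T C (pl (H.be (s + 1) l z) :: [pl (H.J s l x1), pl (H.J s l y1),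
        mi (H.be (s + 1) l (x * y⁻¹ * z))]) := by
      refine H.be_J hs hl z _ (by simp) fun z1 hz => ?_
      have hw : (x * y⁻¹ * z)⁻¹ * (x1 * y1⁻¹ * z1) ∈ (oo ⊥ l : Subgroup D.G) := by
        have e : (x * y⁻¹ * z)⁻¹ * (x1 * y1⁻¹ * z1) =
            ((z⁻¹ * y) * ((x⁻¹ * x1) * (y⁻¹ * y1)⁻¹) * (z⁻¹ * y)⁻¹) * (z⁻¹ * z1) := by group
        rw [e]
        exact mul_mem (hO.conj_mem _ (mul_mem hx (inv_mem hy)) _) hz
      rw [H.ibe (s + 1) l _ _ hw]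
      have a1 := H.J_cl hs h1 h2 h3 hl x1 y1 z1
      have a2 := H.J_be hs hl (x1 * y1⁻¹ * z1)
      exact iv_res (H.J s l (x1 * y1⁻¹ * z1)) a2 (by simp) a1 (by simp) (by simp)
    exact q2.mono (by simp) (by simp)
  exact q1.mono (by simp) (by simp)

theorem SG.cp_succ {s : ℕ} (hs : s < L) (h1 : H.Cl s) (h2 : H.Cp s) (h3 : H.Ne s) : H.Cp (s + 1) := by
  intro l hl t ht x
  refine H.be_J hs hl x _ (by simp) fun z hz => ?_
  obtain ⟨b, hb⟩ : ∃ b, b = H.bb (s + 1) t (oo ⊥ l ⊔ oo ⊥ t) x := ⟨_, rfl⟩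
  rw [← hb]
  have a1 : Rf T C (pl (H.Y s (oo ⊥ l ⊓ D.N (pts (a s))) z) :: [pl (H.J s l z), pl b]) := by
    refine (H.loc hs.le h1 h2 h3).ext (M := oo ⊥ l ⊓ oo ⊥ t ⊓ D.N (pts (a s))) (H.fam.mJ2 s hs l hl t ht)
      (H.fam.mJ s hs l hl) (inf_le_inf_right _ inf_le_left) (by simp) fun z' hz' => ?_
    change Rf T C (pl (H.Y s (oo ⊥ l ⊓ oo ⊥ t ⊓ D.N (pts (a s))) z') :: [pl (H.J s l z), pl b])
    have b1 : Rf T C [pl (H.Y s (oo ⊥ l ⊓ oo ⊥ t ⊓ D.N (pts (a s))) z'),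
        mi (H.Y s (oo ⊥ t ⊓ D.N (pts (a s))) z')] :=
      (H.loc hs.le h1 h2 h3).Y_res (H.fam.mJ2 s hs l hl t ht) (H.fam.mJ s hs t ht)
        (inf_le_inf_right _ inf_le_right) (by rw [inv_mul_cancel]; exact one_mem _)
    have b2 : Rf T C [pl (H.J s l z), mi (H.E s L z')] := by
      rw [← H.iE s L z z' hz'.2]
      exact H.J_E hs hl z
    have b3 : Rf T C [mi (H.J s t z'), pl (H.Y s (oo ⊥ l ⊓ oo ⊥ t ⊓ D.N (pts (a s))) z'), pl (H.J s l z)] :=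
      H.mk_J hs ht z' _ (by simp) (b1.mono (by simp) (by simp)) (b2.mono (by simp) (by simp))
    have b4 := H.J_be hs ht z'
    have hxz : x⁻¹ * z' ∈ (oo ⊥ l ⊔ oo ⊥ t : Subgroup D.G) := by
      have e : x⁻¹ * z' = (x⁻¹ * z) * (z⁻¹ * z') := by group
      rw [e]
      exact Subgroup.mem_sup_left (mul_mem hz hz'.1)
    have b5 : Rf T C [pl b, pl (H.be (s + 1) t z')] := by
      rw [hb]
      exact H.iv_bb hs ht (H.fam.rsup l hl t ht) hxz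
    have b6 : Rf T C [pl b, pl (H.J s t z')] :=
      iv_res (H.be (s + 1) t z') b5 (by simp) b4 (by simp) (by simp)
    exact iv_res (H.J s t z') b6 (by simp) b3 (by simp) (by simp)
  exact iv_res (H.Y s (oo ⊥ l ⊓ D.N (pts (a s))) z) a1 (by simp) (H.J_Y hs hl z) (by simp) (by simp)

theorem SG.ne_succ {s : ℕ} (hs : s < L) (h1 : H.Cl s) (h2 : H.Cp s) (h3 : H.Ne s) : H.Ne (s + 1) := by
  intro l hl
  obtain ⟨b, hb⟩ : ∃ b, b = H.bb (s + 1) l ⊤ 1 := ⟨_, rfl⟩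
  rw [← hb]
  refine (H.loc hs.le h1 h2 h3).ex0 (H.iv_M hs) (by simp) fun x => ?_
  refine H.up_E hs [pl b] (by simp) (fun g => ?_) x
  have a1 : Rf T C (pl (H.Y s (D.N (pts (a s))) g) :: [pl (H.E s L g), pl b]) := by
    refine (H.loc hs.le h1 h2 h3).ext (M := oo ⊥ l ⊓ D.N (pts (a s))) (H.fam.mJ s hs l hl)
      (H.iv_M hs) inf_le_right (by simp) fun z hz => ?_
    change Rf T C (pl (H.Y s (oo ⊥ l ⊓ D.N (pts (a s))) z) :: [pl (H.E s L g), pl b])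
    rw [H.iE s L g z hz]
    have b3 : Rf T C [mi (H.J s l z), pl (H.Y s (oo ⊥ l ⊓ D.N (pts (a s))) z), pl (H.E s L z)] :=
      H.mk_J hs hl z _ (by simp)
        (Rf.triv (pl (H.Y s (oo ⊥ l ⊓ D.N (pts (a s))) z)) (by simp) List.mem_cons_self (by simp))
        (Rf.triv (pl (H.E s L z)) (by simp) List.mem_cons_self (by simp))
    have b4 := H.J_be hs hl z
    have b5 : Rf T C [pl b, pl (H.be (s + 1) l z)] := by
      rw [hb]
      exact H.iv_bb hs hl (H.fam.rM _ H.fam.mtop) (Subgroup.mem_top _)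
    have b6 : Rf T C [pl b, pl (H.J s l z)] :=
      iv_res (H.be (s + 1) l z) b5 (by simp) b4 (by simp) (by simp)
    exact iv_res (H.J s l z) b6 (by simp) b3 (by simp) (by simp)
  exact iv_res (H.Y s (D.N (pts (a s))) g) a1 (by simp) (H.E_Y hs le_rfl g) (by simp) (by simp)

theorem SG.inv_all {s : ℕ} (hs : s ≤ L) : H.Cl s ∧ H.Cp s ∧ H.Ne s := by
  induction s with
  | zero => exact H.inv0
  | succ s ih =>
    obtain ⟨h1, h2, h3⟩ := ih (by omega)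
    exact ⟨H.cl_succ hs h1 h2 h3, H.cp_succ hs h1 h2 h3, H.ne_succ hs h1 h2 h3⟩

end Pool.Agent.H29.SV
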