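import Pool.Agent.H29.SV.SFin
import Pool.Agent.H29.SV.SPrim
import Pool.Agent.H79.SL.RkC
import Pool.Agent.H79.SL.RkP

/-!
# THEOREM RK: the cost of symmetry by the sectional rank

For every finite set `T` of first-order axioms there is a number `c` such that for every group `Γ` of permutations of `n ≥ 2` points
and every solvable subgroup `H` of `Γ` of sectional rank at most `r` (every elementary abelian section of `H` has order at most `p ^ r`)
a refutation `R` over these points gives a `Γ`-symmetric one of size at most `|Γ : H| |R| n ^ (c (r + 1))`.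
-/

set_option autoImplicit false

open Set

namespace Pool.Agent.H29.SV

open Pool.Agent.H42.CS Pool.Agent.H29.NS
open Pool.Agent.H79.SL (oo nx Loc RankLe)

variable {Rel : ℕ → Type}

/-- THEOREM RK -/
theorem rk_main {T : Set (Ax Rel)} (hT : T.Finite) (hl : ∀ A ∈ T, A.lits.Finite ∧ A.ex.Finite) :
    ∃ c : ℕ, ∀ (n r : ℕ) (Γ : Subgroup (Equiv.Perm (Fin n))), 2 ≤ n → Group.IsSolvable Γ → RankLe Γ r →
      ∀ R : Refutation T (Fin n), ∃ R' : Refutation T (Fin n), R'.Symm Γ ∧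
        R'.size ≤ R.size * n ^ (c * (r + 1)) := by
  obtain ⟨c, hc⟩ := solv_main hT hl
  refine ⟨17 * c, ?_⟩
  intro n r Γ hn hΓ hr R
  obtain ⟨R', h3, h4⟩ := hc n Γ (n ^ (8 * r)) (n ^ (8 * r)) hn hΓ
    (fun x => Pool.Agent.H79.SL.rk_stab prim8 hΓ hr x)
    (fun p hp => Pool.Agent.H79.SL.rk_oo (by omega) hΓ hr hp) R
  refine ⟨R', h3, h4.trans (Nat.mul_le_mul_left _ ?_)⟩
  have h5 : n * n ^ (8 * r) * n ^ (8 * r) = n ^ (1 + 8 * r + 8 * r) := by
    rw [pow_add, pow_add, pow_one]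
  rw [h5, ← pow_mul]
  refine Nat.pow_le_pow_right (by omega) ?_
  have h6 : 1 + 8 * r + 8 * r ≤ 17 * (r + 1) := by omega
  calc (1 + 8 * r + 8 * r) * c ≤ 17 * (r + 1) * c := Nat.mul_le_mul_right _ h6
    _ = 17 * c * (r + 1) := by ring

/-- THEOREM RK for a solvable subgroup `H` of a group `Γ` -/
theorem rk_index {T : Set (Ax Rel)} (hT : T.Finite) (hl : ∀ A ∈ T, A.lits.Finite ∧ A.ex.Finite) :
    ∃ c : ℕ, ∀ (n r : ℕ) (Γ H : Subgroup (Equiv.Perm (Fin n))), 2 ≤ n → H ≤ Γ → Group.IsSolvable H →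
      RankLe H r →
      ∀ R : Refutation T (Fin n), ∃ R' : Refutation T (Fin n), R'.Symm Γ ∧
        R'.size ≤ H.relIndex Γ * (R.size * n ^ (c * (r + 1))) := by
  obtain ⟨c, hc⟩ := rk_main hT hl
  refine ⟨c, ?_⟩
  intro n r Γ H hn hH hs hr R
  obtain ⟨R1, h3, h4⟩ := hc n r H hn hs hr R
  obtain ⟨R2, h5, h6⟩ := sym_index hH R1 h3
  exact ⟨R2, h5, h6.trans (Nat.mul_le_mul_left _ h4)⟩

end Pool.Agent.H29.SV
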